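import Mathlib
import Pool.Agent.N605.RB.Sym
import Pool.Agent.W291.RP.U2

set_option autoImplicit false

/-!
The volume radius of the symmetric parts of a convex body, and its concavity.
-/

namespace Pool.Agent.J4H21

open MeasureTheory Module Set
open scoped Pointwise ENNReal RealInnerProductSpace
open Pool.Agent.N605.RB

variable {n : ℕ}

/-- A convex body with the origin in its interior. -/
structure CB0 (K : Set (EuclideanSpace ℝ (Fin n))) : Prop where
  comp : IsCompact K
  conv : Convex ℝ K
  zero : (0 : EuclideanSpace ℝ (Fin n)) ∈ interior K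

/-- The `n`-th root of the volume of the part of `K` which is symmetric about `p`. -/
noncomputable def rad (K : Set (EuclideanSpace ℝ (Fin n))) (p : EuclideanSpace ℝ (Fin n)) : ℝ :=
  (volume (symPart K p)).toReal ^ ((n : ℝ)⁻¹)

theorem symPart_isClosed {K : Set (EuclideanSpace ℝ (Fin n))} (hK : IsClosed K)
    (p : EuclideanSpace ℝ (Fin n)) : IsClosed (symPart K p) :=
  (hK.preimage (continuous_const.add continuous_id)).inter
    (hK.preimage (continuous_const.sub continuous_id))

theorem symPart_subset (K : Set (EuclideanSpace ℝ (Fin n))) (p : EuclideanSpace ℝ (Fin n)) :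
    symPart K p ⊆ (fun s => p + s) ⁻¹' K := fun _ hs => hs.1

theorem symPart_isCompact {K : Set (EuclideanSpace ℝ (Fin n))} (hK : IsCompact K)
    (p : EuclideanSpace ℝ (Fin n)) : IsCompact (symPart K p) := by
  have h1 : IsCompact ((fun s => p + s) ⁻¹' K) :=
    (Homeomorph.addLeft p).isCompact_preimage.mpr hK
  exact h1.of_isClosed_subset (symPart_isClosed hK.isClosed p) (symPart_subset K p)

theorem symPart_mono {D K : Set (EuclideanSpace ℝ (Fin n))} (h : D ⊆ K)
    (p : EuclideanSpace ℝ (Fin n)) : symPart D p ⊆ symPart K p :=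
  fun _ hs => ⟨h hs.1, h hs.2⟩

theorem symPart_lt_top {K : Set (EuclideanSpace ℝ (Fin n))} (hK : IsCompact K)
    (p : EuclideanSpace ℝ (Fin n)) : volume (symPart K p) < ⊤ :=
  (symPart_isCompact hK p).measure_lt_top

theorem rad_nonneg (K : Set (EuclideanSpace ℝ (Fin n))) (p : EuclideanSpace ℝ (Fin n)) :
    0 ≤ rad K p := Real.rpow_nonneg ENNReal.toReal_nonneg _

theorem rad_pow (hn : 0 < n) (K : Set (EuclideanSpace ℝ (Fin n)))
    (p : EuclideanSpace ℝ (Fin n)) : rad K p ^ n = (volume (symPart K p)).toReal := by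
  unfold rad
  rw [← Real.rpow_natCast, ← Real.rpow_mul ENNReal.toReal_nonneg,
    inv_mul_cancel₀ (by positivity), Real.rpow_one]

theorem rad_mono {D K : Set (EuclideanSpace ℝ (Fin n))} (hK : IsCompact K) (h : D ⊆ K)
    (p : EuclideanSpace ℝ (Fin n)) : rad D p ≤ rad K p := by
  unfold rad
  refine Real.rpow_le_rpow ENNReal.toReal_nonneg ?_ (by positivity)
  exact ENNReal.toReal_mono (symPart_lt_top hK p).ne (measure_mono (symPart_mono h p))

theorem CB0.zero_mem {K : Set (EuclideanSpace ℝ (Fin n))} (hK : CB0 K) :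
    (0 : EuclideanSpace ℝ (Fin n)) ∈ K := interior_subset hK.zero

theorem symPart_zero_nhds {K : Set (EuclideanSpace ℝ (Fin n))} (hK : CB0 K) :
    (0 : EuclideanSpace ℝ (Fin n)) ∈ interior (symPart K 0) := by
  rw [mem_interior_iff_mem_nhds]
  have h1 : K ∈ nhds (0 : EuclideanSpace ℝ (Fin n)) := mem_interior_iff_mem_nhds.mp hK.zero
  have h2 : (fun s : EuclideanSpace ℝ (Fin n) => (0 : EuclideanSpace ℝ (Fin n)) + s) ⁻¹' K ∈
      nhds (0 : EuclideanSpace ℝ (Fin n)) := by
    apply ContinuousAt.preimage_mem_nhds (by fun_prop)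
    simpa using h1
  have h3 : (fun s : EuclideanSpace ℝ (Fin n) => (0 : EuclideanSpace ℝ (Fin n)) - s) ⁻¹' K ∈
      nhds (0 : EuclideanSpace ℝ (Fin n)) := by
    apply ContinuousAt.preimage_mem_nhds (by fun_prop)
    simpa using h1
  exact Filter.inter_mem h2 h3

theorem symPart_zero_pos {K : Set (EuclideanSpace ℝ (Fin n))} (hK : CB0 K) :
    0 < (volume (symPart K 0)).toReal := by
  refine ENNReal.toReal_pos ?_ (symPart_lt_top hK.comp 0).ne
  have h1 := isOpen_interior.measure_pos volume ⟨0, symPart_zero_nhds hK⟩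
  exact (h1.trans_le (measure_mono interior_subset)).ne'

theorem rad_zero_pos {K : Set (EuclideanSpace ℝ (Fin n))} (hK : CB0 K) : 0 < rad K 0 :=
  Real.rpow_pos_of_pos (symPart_zero_pos hK) _

theorem zero_mem_symPart {K : Set (EuclideanSpace ℝ (Fin n))} {p : EuclideanSpace ℝ (Fin n)}
    (hp : p ∈ K) : (0 : EuclideanSpace ℝ (Fin n)) ∈ symPart K p := by
  constructor <;> simpa using hp

theorem symPart_combo {K : Set (EuclideanSpace ℝ (Fin n))} (hK : Convex ℝ K)
    {x y : EuclideanSpace ℝ (Fin n)} {a b : ℝ} (ha : 0 ≤ a) (hb : 0 ≤ b) (hab : a + b = 1)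
    {s t : EuclideanSpace ℝ (Fin n)} (hs : s ∈ symPart K x) (ht : t ∈ symPart K y) :
    a • s + b • t ∈ symPart K (a • x + b • y) := by
  constructor
  · have := hK hs.1 ht.1 ha hb hab
    have e : a • x + b • y + (a • s + b • t) = a • (x + s) + b • (y + t) := by
      rw [smul_add, smul_add]; abel
    rw [e]; exact this
  · have := hK hs.2 ht.2 ha hb hab
    have e : a • x + b • y - (a • s + b • t) = a • (x - s) + b • (y - t) := by
      rw [smul_sub, smul_sub]; abel
    rw [e]; exact this

/-- degenerate case of concavity -/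
theorem rad_scale (hn : 0 < n) {K : Set (EuclideanSpace ℝ (Fin n))} (hc : IsCompact K)
    (hK : Convex ℝ K) {x y : EuclideanSpace ℝ (Fin n)} (hy : y ∈ K) {a b : ℝ} (ha : 0 ≤ a)
    (hb : 0 ≤ b) (hab : a + b = 1) : a * rad K x ≤ rad K (a • x + b • y) := by
  have h1 : a • symPart K x ⊆ symPart K (a • x + b • y) := by
    rintro _ ⟨s, hs, rfl⟩
    have := symPart_combo hK ha hb hab hs (zero_mem_symPart hy)
    simpa using this
  have h2 : volume (a • symPart K x) ≤ volume (symPart K (a • x + b • y)) := measure_mono h1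
  rw [Measure.addHaar_smul, finrank_euclideanSpace_fin, abs_of_nonneg (by positivity)] at h2
  have h3 := ENNReal.toReal_mono (symPart_lt_top hc _).ne h2
  rw [ENNReal.toReal_mul, ENNReal.toReal_ofReal (by positivity), ← rad_pow hn, ← rad_pow hn,
    ← mul_pow] at h3
  exact le_of_pow_le_pow_left₀ hn.ne' (rad_nonneg _ _) h3

/-- **Brunn-Minkowski** for the symmetric parts. -/
theorem rad_concave (hn : 0 < n) {K : Set (EuclideanSpace ℝ (Fin n))} (hc : IsCompact K)
    (hK : Convex ℝ K) {x y : EuclideanSpace ℝ (Fin n)} (hx : x ∈ K) (hy : y ∈ K) {a b : ℝ}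
    (ha : 0 ≤ a) (hb : 0 ≤ b) (hab : a + b = 1) :
    a * rad K x + b * rad K y ≤ rad K (a • x + b • y) := by
  rcases eq_or_lt_of_le (ENNReal.toReal_nonneg (a := volume (symPart K x))) with h0 | hx0
  · have : rad K x = 0 := by
      have := rad_pow hn K x
      rw [← h0] at this
      exact pow_eq_zero_iff hn.ne' |>.mp this
    rw [this, mul_zero, zero_add, add_comm (a • x)]
    exact rad_scale hn hc hK hx hb ha (by linarith)
  rcases eq_or_lt_of_le (ENNReal.toReal_nonneg (a := volume (symPart K y))) with h0 | hy0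
  · have : rad K y = 0 := by
      have := rad_pow hn K y
      rw [← h0] at this
      exact pow_eq_zero_iff hn.ne' |>.mp this
    rw [this, mul_zero, add_zero]
    exact rad_scale hn hc hK hy ha hb hab
  rcases eq_or_lt_of_le ha with ha0 | ha0
  · have hb1 : b = 1 := by linarith
    rw [← ha0, hb1]; simp
  rcases eq_or_lt_of_le hb with hb0 | hb0
  · have ha1 : a = 1 := by linarith
    rw [← hb0, ha1]; simp
  have ha1 : a = 1 - b := by linarith
  subst ha1
  exact Pool.Agent.W291.RP.bm_conv (k := n) hn hb0 (by linarith)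
    (symPart_isClosed hc.isClosed x).measurableSet (symPart_isClosed hc.isClosed y).measurableSet
    (symPart_isClosed hc.isClosed _).measurableSet hx0 hy0 (symPart_lt_top hc _).ne
    (fun s hs t ht => symPart_combo hK ha0.le hb hab hs ht)

end Pool.Agent.J4H21
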