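import Mathlib
import Pool.Agent.J4H21.Geo

set_option autoImplicit false

/-!
The points `x` of a convex body `K` for which `K ∩ (x - K)` has small volume.
-/

namespace Pool.Agent.J4H21

open MeasureTheory Module Set
open scoped Pointwise ENNReal RealInnerProductSpace
open Pool.Agent.N605.RB

variable {n : ℕ}

/-- The points of `K` at which the volume radius of `K ∩ (x - K)` is at most `q / 2` times that of
`K ∩ (-K)`. -/
def Bad (K : Set (EuclideanSpace ℝ (Fin n))) (q : ℝ) : Set (EuclideanSpace ℝ (Fin n)) :=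
  {x | x ∈ K ∧ 2 * rad K ((1 / 2 : ℝ) • x) ≤ q * rad K 0}

/-- The complement of the bad set in `K`. -/
def Good (K : Set (EuclideanSpace ℝ (Fin n))) (q : ℝ) : Set (EuclideanSpace ℝ (Fin n)) :=
  {x | x ∈ K ∧ q * rad K 0 < 2 * rad K ((1 / 2 : ℝ) • x)}

theorem bad_iff {K : Set (EuclideanSpace ℝ (Fin n))} {q : ℝ} {x : EuclideanSpace ℝ (Fin n)}
    (hx : x ∈ K) : x ∈ Bad K q ↔ x ∉ Good K q := by
  constructor
  · intro h h'
    exact absurd h'.2 (not_lt.mpr h.2)
  · intro h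
    refine ⟨hx, ?_⟩
    by_contra h'
    exact h ⟨hx, not_le.mp h'⟩

theorem smul_mem_K {K : Set (EuclideanSpace ℝ (Fin n))} (hK : CB0 K)
    {x : EuclideanSpace ℝ (Fin n)} (hx : x ∈ K) {s : ℝ} (h0 : 0 ≤ s) (h1 : s ≤ 1) :
    s • x ∈ K := hK.conv.smul_mem_of_zero_mem hK.zero_mem hx ⟨h0, h1⟩

theorem bad_shrink (hn : 0 < n) {K : Set (EuclideanSpace ℝ (Fin n))} (hK : CB0 K) {q s : ℝ}
    (h0 : 0 ≤ s) (h1 : s ≤ 1) {x : EuclideanSpace ℝ (Fin n)} (hx : x ∈ Bad K q) :
    (1 - s) • x ∈ Bad K ((1 + s) * q) := by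
  refine ⟨smul_mem_K hK hx.1 (by linarith) (by linarith), ?_⟩
  have hy : (1 / 2 : ℝ) • (1 - s) • x ∈ K :=
    smul_mem_K hK (smul_mem_K hK hx.1 (by linarith) (by linarith)) (by norm_num) (by norm_num)
  have h2 := rad_concave hn hK.comp hK.conv hy hx.1 (a := 1 / (1 + s)) (b := s / (1 + s))
    (by positivity) (by positivity) (by field_simp)
  have e : (1 / (1 + s)) • (1 / 2 : ℝ) • (1 - s) • x + (s / (1 + s)) • x = (1 / 2 : ℝ) • x := by
    rw [smul_smul, smul_smul, ← add_smul]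
    congr 1
    field_simp
    ring
  rw [e] at h2
  have h3 := rad_nonneg K x
  have h4 : 1 / (1 + s) * rad K ((1 / 2 : ℝ) • (1 - s) • x) ≤ rad K ((1 / 2 : ℝ) • x) := by
    have : 0 ≤ s / (1 + s) * rad K x := by positivity
    linarith
  rw [one_div, inv_mul_le_iff₀ (by positivity)] at h4
  have h5 := hx.2
  nlinarith

theorem rad_half_ge (hn : 0 < n) {K : Set (EuclideanSpace ℝ (Fin n))} (hK : CB0 K)
    {y : EuclideanSpace ℝ (Fin n)} (hy : y ∈ K) :
    rad K 0 + rad K y ≤ 2 * rad K ((1 / 2 : ℝ) • y) := by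
  have h2 := rad_concave hn hK.comp hK.conv hK.zero_mem hy (a := 1 / 2) (b := 1 / 2)
    (by norm_num) (by norm_num) (by norm_num)
  rw [smul_zero, zero_add] at h2
  linarith

theorem rad_le_of_bad (hn : 0 < n) {K : Set (EuclideanSpace ℝ (Fin n))} (hK : CB0 K) {q : ℝ}
    {y : EuclideanSpace ℝ (Fin n)} (hy : y ∈ Bad K q) : rad K y ≤ (q - 1) * rad K 0 := by
  have := rad_half_ge hn hK hy.1
  have := hy.2
  linarith

theorem good_of_shrink (hn : 0 < n) {K : Set (EuclideanSpace ℝ (Fin n))} (hK : CB0 K)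
    {q s : ℝ} (h0 : 0 ≤ s) (h1 : s ≤ 1) (hq : q < 1 + s) {x : EuclideanSpace ℝ (Fin n)}
    (hx : x ∈ K) : (1 - s) • x ∈ Good K q := by
  refine ⟨smul_mem_K hK hx (by linarith) (by linarith), ?_⟩
  have h2 := rad_concave hn hK.comp hK.conv hK.zero_mem hx (a := (1 + s) / 2) (b := (1 - s) / 2)
    (by linarith) (by linarith) (by ring)
  rw [smul_zero, zero_add] at h2
  have e : (1 / 2 : ℝ) • (1 - s) • x = ((1 - s) / 2) • x := by
    rw [smul_smul]; congr 1; ring
  rw [e]
  have h3 := rad_nonneg K x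
  have h4 := rad_zero_pos hK
  have h5 : 0 ≤ (1 - s) / 2 * rad K x := mul_nonneg (by linarith) h3
  nlinarith

theorem good_convex (hn : 0 < n) {K : Set (EuclideanSpace ℝ (Fin n))} (hK : CB0 K) (q : ℝ) :
    Convex ℝ (Good K q) := by
  intro x hx y hy a b ha hb hab
  refine ⟨hK.conv hx.1 hy.1 ha hb hab, ?_⟩
  have hx2 : (1 / 2 : ℝ) • x ∈ K := smul_mem_K hK hx.1 (by norm_num) (by norm_num)
  have hy2 : (1 / 2 : ℝ) • y ∈ K := smul_mem_K hK hy.1 (by norm_num) (by norm_num)
  have h2 := rad_concave hn hK.comp hK.conv hx2 hy2 ha hb hab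
  have e : (1 / 2 : ℝ) • (a • x + b • y) = a • (1 / 2 : ℝ) • x + b • (1 / 2 : ℝ) • y := by
    rw [smul_add, smul_comm a, smul_comm b]
  rw [e]
  have h3 := hx.2
  have h4 := hy.2
  have e2 : q * rad K 0 = a * (q * rad K 0) + b * (q * rad K 0) := by
    rw [← add_mul, hab, one_mul]
  rw [e2]
  rcases eq_or_lt_of_le ha with ha0 | ha0
  · have hb1 : b = 1 := by linarith
    rw [← ha0, hb1]
    simp only [zero_smul, one_smul, zero_add, zero_mul, one_mul]
    exact h4
  · nlinarith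

theorem mem_of_symPart {D : Set (EuclideanSpace ℝ (Fin n))} (hD : Convex ℝ D)
    {p s : EuclideanSpace ℝ (Fin n)} (hs : s ∈ symPart D p) : p ∈ D := by
  have := hD hs.1 hs.2 (show (0 : ℝ) ≤ 1 / 2 by norm_num) (show (0 : ℝ) ≤ 1 / 2 by norm_num)
    (by norm_num)
  have e : (1 / 2 : ℝ) • (p + s) + (1 / 2 : ℝ) • (p - s) = p := by
    rw [← smul_add]
    have : p + s + (p - s) = (2 : ℝ) • p := by rw [two_smul]; abel
    rw [this, smul_smul]; norm_num
  rwa [e] at this

/-- A convex set of bad points has small volume. -/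
theorem vol_bad (hn : 0 < n) {K : Set (EuclideanSpace ℝ (Fin n))} (hK : CB0 K) {q : ℝ}
    {D : Set (EuclideanSpace ℝ (Fin n))} (hD : Convex ℝ D) (hDc : IsCompact D)
    (hDi : (interior D).Nonempty) (hDB : D ⊆ Bad K q) :
    (volume D).toReal ≤ (2 * (q - 1) * rad K 0) ^ n := by
  obtain ⟨p, hp⟩ := exists_symPart volume D hD hDc hDi
  rw [finrank_euclideanSpace_fin] at hp
  have hDK : D ⊆ K := fun x hx => (hDB hx).1
  have hpos : 0 < volume D := (isOpen_interior.measure_pos volume hDi).trans_le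
    (measure_mono interior_subset)
  have hne : (symPart D p).Nonempty := by
    rw [Set.nonempty_iff_ne_empty]
    intro h
    rw [h, measure_empty, mul_zero] at hp
    exact absurd hp (not_le.mpr hpos)
  obtain ⟨s, hs⟩ := hne
  have hpD := mem_of_symPart hD hs
  have h1 : (volume D).toReal ≤ 2 ^ n * (volume (symPart D p)).toReal := by
    have := ENNReal.toReal_mono (ENNReal.mul_ne_top (by simp) (symPart_lt_top hDc p).ne) hp
    simpa [ENNReal.toReal_mul] using this
  have h2 : rad D p ≤ (q - 1) * rad K 0 :=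
    (rad_mono hK.comp hDK p).trans (rad_le_of_bad hn hK (hDB hpD))
  calc (volume D).toReal ≤ 2 ^ n * (volume (symPart D p)).toReal := h1
    _ = 2 ^ n * rad D p ^ n := by rw [rad_pow hn]
    _ ≤ 2 ^ n * ((q - 1) * rad K 0) ^ n := by
        gcongr
        exact rad_nonneg _ _
    _ = (2 * (q - 1) * rad K 0) ^ n := by rw [← mul_pow]; ring

end Pool.Agent.J4H21
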