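import Mathlib
import Pool.Agent.H845R2.GB
import Pool.Agent.H845R3.NS1

set_option autoImplicit false

/-!
The Rogers-Shephard inequality, up to a constant, in Euclidean space.
-/

namespace Pool.Agent.J4H21

open MeasureTheory Module Set
open scoped Pointwise ENNReal RealInnerProductSpace
open Pool.Agent.H845R2

variable {n : ℕ}

theorem rs {P : Set (EuclideanSpace ℝ (Fin n))} (hc : IsCompact P) (hv : Convex ℝ P)
    (hi : (interior P).Nonempty) : volume (P - P) ≤ 4 ^ n * volume P := by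
  obtain ⟨φ, hvol, -, hcφ, hcφ'⟩ := exists_coord (EuclideanSpace ℝ (Fin n))
  obtain ⟨p₀, hp₀⟩ := hi
  set P₀ : Set (EuclideanSpace ℝ (Fin n)) := (fun x => -p₀ + x) '' P with hP₀
  have hvP : volume P₀ = volume P := by
    rw [hP₀, Set.image_add_left, measure_preimage_add]
  let h : EuclideanSpace ℝ (Fin n) ≃ₜ (Fin (finrank ℝ (EuclideanSpace ℝ (Fin n))) → ℝ) :=
    { toEquiv := φ.toEquiv, continuous_toFun := hcφ, continuous_invFun := hcφ' }
  have hNB : Pool.Agent.H845R3.NB (φ '' P₀) := by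
    refine ⟨?_, ?_, ?_⟩
    · exact (hc.image (by fun_prop)).image hcφ
    · exact (hv.translate (-p₀)).linear_image φ.toLinearMap
    · have h1 : h '' (interior P₀) = interior (h '' P₀) := h.image_interior P₀
      have h2 : (0 : EuclideanSpace ℝ (Fin n)) ∈ interior P₀ := by
        have h3 : (fun x => -p₀ + x) '' (interior P) = interior P₀ :=
          (Homeomorph.addLeft (-p₀)).image_interior P
        rw [← h3]
        exact ⟨p₀, hp₀, by simp⟩
      have h4 : h 0 ∈ interior (h '' P₀) := by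
        rw [← h1]; exact ⟨0, h2, rfl⟩
      have h5 : h 0 = 0 := map_zero φ
      rw [h5] at h4
      exact h4
  have h1 := hNB.rogers_shephard
  have h2 : Pool.Agent.H845R3.diffB (φ '' P₀) = φ '' (P - P) := by
    ext z
    constructor
    · rintro ⟨_, ⟨_, ⟨x, hx, rfl⟩, rfl⟩, _, ⟨_, ⟨y, hy, rfl⟩, rfl⟩, rfl⟩
      refine ⟨x - y, ⟨x, hx, y, hy, rfl⟩, ?_⟩
      simp only
      rw [← map_sub]
      congr 1
      abel
    · rintro ⟨_, ⟨x, hx, y, hy, rfl⟩, rfl⟩
      refine ⟨_, ⟨_, ⟨x, hx, rfl⟩, rfl⟩, _, ⟨_, ⟨y, hy, rfl⟩, rfl⟩, ?_⟩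
      simp only
      rw [← map_sub]
      congr 1
      abel
  rw [h2, hvol, hvol, hvP, Fintype.card_fin, finrank_euclideanSpace_fin] at h1
  exact h1

end Pool.Agent.J4H21
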