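import Mathlib
import Pool.Agent.J4H21.Bad

set_option autoImplicit false

/-!
Separation of a bad point from the convex set of good points.
-/

namespace Pool.Agent.J4H21

open MeasureTheory Module Set
open scoped Pointwise ENNReal RealInnerProductSpace
open Pool.Agent.N605.RB

variable {n : ℕ}

theorem good_zero_int (hn : 0 < n) {K : Set (EuclideanSpace ℝ (Fin n))} (hK : CB0 K)
    {q σ : ℝ} (h0 : 0 < σ) (h1 : σ < 1) (hq : q < 1 + σ) :
    (0 : EuclideanSpace ℝ (Fin n)) ∈ interior (Good K q) := by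
  have h2 : (1 - σ) • K ⊆ Good K q := by
    rintro _ ⟨x, hx, rfl⟩
    exact good_of_shrink hn hK h0.le h1.le hq hx
  have h3 : (0 : EuclideanSpace ℝ (Fin n)) ∈ interior ((1 - σ) • K) := by
    rw [interior_smul₀ (by linarith : (1 - σ) ≠ 0)]
    exact ⟨0, hK.zero, by simp⟩
  exact interior_mono h2 h3

/-- The separating functional. -/
theorem exists_sep (hn : 0 < n) {K : Set (EuclideanSpace ℝ (Fin n))} (hK : CB0 K)
    {q σ : ℝ} (h0 : 0 < σ) (h1 : σ < 1) (hq : q < 1 + σ) {y : EuclideanSpace ℝ (Fin n)}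
    (hy : y ∈ K) (hyQ : y ∉ Good K q) :
    ∃ ψ : EuclideanSpace ℝ (Fin n), (∀ z ∈ K, ⟪z, ψ⟫ ≤ 1) ∧ 1 - σ ≤ ⟪y, ψ⟫ ∧
      ∀ z ∈ Good K q, ⟪z, ψ⟫ ≤ ⟪y, ψ⟫ := by
  have hz := good_zero_int hn hK h0 h1 hq
  have hconv := good_convex hn hK q
  have hyI : y ∉ interior (Good K q) := fun h => hyQ (interior_subset h)
  obtain ⟨f, hf⟩ := geometric_hahn_banach_open_point hconv.interior isOpen_interior hyI
  have hfy : 0 < f y := by simpa using hf 0 hz
  have hf2 : ∀ z ∈ Good K q, f z ≤ f y := by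
    intro z hz'
    have h2 : z ∈ closure (interior (Good K q)) := by
      rw [hconv.closure_interior_eq_closure_of_nonempty_interior ⟨0, hz⟩]
      exact subset_closure hz'
    have h3 : closure (interior (Good K q)) ⊆ {z | f z ≤ f y} :=
      closure_minimal (fun z hz => (hf z hz).le) (isClosed_le (by fun_prop) continuous_const)
    exact h3 h2
  obtain ⟨x', hx', hmax⟩ := hK.comp.exists_isMaxOn ⟨0, hK.zero_mem⟩ (f := fun z => f z)
    (by fun_prop)
  have hM : 0 < f x' := hfy.trans_le (hmax hy)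
  set w := (InnerProductSpace.toDual ℝ (EuclideanSpace ℝ (Fin n))).symm f with hw
  have hfw : ∀ z, f z = ⟪z, w⟫ := by
    intro z
    rw [real_inner_comm, hw, InnerProductSpace.toDual_symm_apply]
  refine ⟨(f x')⁻¹ • w, ?_, ?_, ?_⟩
  · intro z hz'
    rw [inner_smul_right, ← hfw, inv_mul_le_iff₀ hM, mul_one]
    exact hmax hz'
  · rw [inner_smul_right, ← hfw]
    have h4 := hf2 _ (good_of_shrink hn hK h0.le h1.le hq hx')
    rw [map_smul, smul_eq_mul] at h4
    rw [le_inv_mul_iff₀ hM]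
    linarith
  · intro z hz'
    rw [inner_smul_right, inner_smul_right, ← hfw, ← hfw]
    exact mul_le_mul_of_nonneg_left (hf2 z hz') (by positivity)

end Pool.Agent.J4H21
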