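import Mathlib
import Pool.Agent.J4H21.Sep
import Pool.Agent.J4H21.RS
import Pool.Agent.H845R2.Sa

set_option autoImplicit false

/-!
The cap of the polar body of functionals which are nearly maximal at a bad point is large.
-/

namespace Pool.Agent.J4H21

open MeasureTheory Module Set
open scoped Pointwise ENNReal RealInnerProductSpace
open Pool.Agent.N605.RB Pool.Agent.H845R2

variable {n : ℕ}

theorem pol_isCompact {K : Set (EuclideanSpace ℝ (Fin n))} (hK : CB0 K) : IsCompact (pol K) := by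
  have h1 : K ∈ nhds (0 : EuclideanSpace ℝ (Fin n)) := mem_interior_iff_mem_nhds.1 hK.zero
  obtain ⟨r, hr, h⟩ := Metric.nhds_basis_closedBall.mem_iff.1 h1
  have h2 := (sb_closedBall (V := EuclideanSpace ℝ (Fin n)) hr).pol.comp
  exact h2.of_isClosed_subset (pol_closed K) (pol_anti h)

theorem zero_mem_pol (K : Set (EuclideanSpace ℝ (Fin n))) :
    (0 : EuclideanSpace ℝ (Fin n)) ∈ pol K := fun x _ => by simp

theorem pol_zero_int {K : Set (EuclideanSpace ℝ (Fin n))} (hK : IsCompact K) :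
    (0 : EuclideanSpace ℝ (Fin n)) ∈ interior (pol K) := by
  obtain ⟨R, hR⟩ := hK.isBounded.exists_norm_le
  have hR' : 0 < max R 1 := by positivity
  have h1 := (sb_closedBall (V := EuclideanSpace ℝ (Fin n)) hR').pol.zero_int
  refine interior_mono (pol_anti ?_) h1
  intro x hx
  rw [mem_closedBall_zero_iff]
  exact (hR x hx).trans (le_max_left _ _)

theorem mem_of_pol {K : Set (EuclideanSpace ℝ (Fin n))} (hK : CB0 K)
    {z : EuclideanSpace ℝ (Fin n)} (hz : ∀ φ ∈ pol K, ⟪z, φ⟫ ≤ 1) : z ∈ K := by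
  by_contra hxK
  obtain ⟨f, u, h1, h2⟩ := geometric_hahn_banach_closed_point hK.conv hK.comp.isClosed hxK
  have hu : 0 < u := by
    have := h1 0 hK.zero_mem
    simpa using this
  set y := (InnerProductSpace.toDual ℝ (EuclideanSpace ℝ (Fin n))).symm f with hy
  have hfy : ∀ z, f z = ⟪z, y⟫ := by
    intro z
    rw [real_inner_comm, hy, InnerProductSpace.toDual_symm_apply]
  have h3 : u⁻¹ • y ∈ pol K := by
    intro k hk
    rw [inner_smul_right, ← hfy, inv_mul_le_iff₀ hu, mul_one]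
    exact (h1 k hk).le
  have h4 := hz _ h3
  rw [inner_smul_right, ← hfy, inv_mul_le_iff₀ hu, mul_one] at h4
  linarith

/-- the cap of the polar body -/
def cap (K : Set (EuclideanSpace ℝ (Fin n))) (x : EuclideanSpace ℝ (Fin n)) (t : ℝ) :
    Set (EuclideanSpace ℝ (Fin n)) := {θ | θ ∈ pol K ∧ 1 - t ≤ ⟪x, θ⟫}

theorem cap_convex (K : Set (EuclideanSpace ℝ (Fin n))) (x : EuclideanSpace ℝ (Fin n)) (t : ℝ) :
    Convex ℝ (cap K x t) := by
  intro θ hθ η hη a b ha hb hab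
  refine ⟨pol_convex K hθ.1 hη.1 ha hb hab, ?_⟩
  rw [inner_add_right, inner_smul_right, inner_smul_right]
  have h1 := hθ.2
  have h2 := hη.2
  have e : 1 - t = a * (1 - t) + b * (1 - t) := by rw [← add_mul, hab, one_mul]
  rw [e]
  gcongr

theorem cap_isClosed (K : Set (EuclideanSpace ℝ (Fin n))) (x : EuclideanSpace ℝ (Fin n)) (t : ℝ) :
    IsClosed (cap K x t) := by
  have h : IsClosed {θ : EuclideanSpace ℝ (Fin n) | 1 - t ≤ ⟪x, θ⟫} :=
    isClosed_le continuous_const (by fun_prop)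
  exact (pol_closed K).inter h

theorem cap_isCompact {K : Set (EuclideanSpace ℝ (Fin n))} (hK : CB0 K)
    (x : EuclideanSpace ℝ (Fin n)) (t : ℝ) : IsCompact (cap K x t) :=
  (pol_isCompact hK).of_isClosed_subset (cap_isClosed K x t) fun _ h => h.1

theorem cap_shrink {K : Set (EuclideanSpace ℝ (Fin n))} {x ψ : EuclideanSpace ℝ (Fin n)}
    {σ t : ℝ} (hψ : ψ ∈ cap K x σ) (hσ : 0 ≤ σ) {ε : ℝ} (h0 : 0 ≤ ε) (h1 : ε ≤ 1)
    (h2 : ε ≤ t - σ) : (1 - ε) • ψ ∈ cap K x t := by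
  refine ⟨?_, ?_⟩
  · exact (pol_convex K).smul_mem_of_zero_mem (zero_mem_pol K) hψ.1 ⟨by linarith, by linarith⟩
  · rw [inner_smul_right]
    have h3 := hψ.2
    nlinarith

theorem cap_int_nonempty {K : Set (EuclideanSpace ℝ (Fin n))} (hK : CB0 K)
    {x ψ : EuclideanSpace ℝ (Fin n)}
    {σ t : ℝ} (hψ : ψ ∈ cap K x σ) (hσ : 0 ≤ σ) (hσt : σ < t) :
    (interior (cap K x t)).Nonempty := by
  obtain ⟨ε, hε0, hε1, hε2⟩ : ∃ ε : ℝ, 0 < ε ∧ ε ≤ 1 ∧ ε < t - σ :=
    ⟨min 1 ((t - σ) / 2), by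
      apply lt_min one_pos; linarith, min_le_left _ _, by
      refine (min_le_right _ _).trans_lt ?_; linarith⟩
  refine ⟨(1 - ε) • ψ, ?_⟩
  have h1 : (1 - ε) • ψ ∈ interior (pol K) := by
    have := (pol_convex K).combo_interior_self_subset_interior (a := ε) (b := 1 - ε) hε0
      (by linarith) (by ring) (Set.add_mem_add (Set.smul_mem_smul_set (pol_zero_int hK.comp))
      (Set.smul_mem_smul_set hψ.1))
    simpa using this
  have h2 : 1 - t < ⟪x, (1 - ε) • ψ⟫ := by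
    rw [inner_smul_right]
    have h3 := hψ.2
    nlinarith
  have h3 : (interior (pol K) ∩ {θ | 1 - t < ⟪x, θ⟫}) ⊆ cap K x t := by
    rintro θ ⟨h4, h5⟩
    exact ⟨interior_subset h4, le_of_lt h5⟩
  have h4 : IsOpen (interior (pol K) ∩ {θ | 1 - t < ⟪x, θ⟫}) :=
    isOpen_interior.inter (isOpen_lt continuous_const (by fun_prop))
  exact interior_maximal h3 h4 ⟨h1, h2⟩

/-- the polar of the cap and its opposite -/
def Lx (K : Set (EuclideanSpace ℝ (Fin n))) (x : EuclideanSpace ℝ (Fin n)) (t : ℝ) :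
    Set (EuclideanSpace ℝ (Fin n)) := {v | ∀ θ ∈ cap K x t, |⟪v, θ⟫| ≤ 1}

theorem Lx_subset (hn : 2 ≤ n) {K : Set (EuclideanSpace ℝ (Fin n))} (hK : CB0 K)
    {x ψ : EuclideanSpace ℝ (Fin n)} (hx : x ∈ K)
    {σ t : ℝ} (hψ : ψ ∈ cap K x σ) (hσ : 0 ≤ σ) (hσt : 4 / (n : ℝ) ≤ t - σ)
    {v : EuclideanSpace ℝ (Fin n)} (hv : v ∈ Lx K x t) :
    (1 / (n : ℝ)) • v ∈ symPart K ((1 - 1 / (n : ℝ)) • x) := by
  have hn0 : (0 : ℝ) < n := by positivity
  have hn2 : (2 : ℝ) ≤ n := by exact_mod_cast hn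
  have hts : 0 < t - σ := lt_of_lt_of_le (by positivity) hσt
  have hψ' : ψ ∈ cap K x t := ⟨hψ.1, by have := hψ.2; linarith⟩
  have key : ∀ φ ∈ pol K, |⟪v, φ⟫| ≤ 1 + (n - 1) * (1 - ⟪x, φ⟫) := by
    intro φ hφ
    have hκ : 0 ≤ 1 - ⟪x, φ⟫ := by
      have := hφ x hx
      linarith
    set κ := 1 - ⟪x, φ⟫ with hκdef
    by_cases h : κ ≤ t
    · have h1 : φ ∈ cap K x t := ⟨hφ, by linarith⟩
      have h2 := hv φ h1
      have h3 : 0 ≤ ((n : ℝ) - 1) * κ := mul_nonneg (by linarith) hκ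
      linarith
    · push Not at h
      have hκ0 : 0 < κ := by linarith
      set l := (t - σ) / κ with hl
      have hl0 : 0 < l := by positivity
      have hl1 : l ≤ 1 := by rw [hl, div_le_one hκ0]; linarith
      have hlκ : l * κ = t - σ := by rw [hl]; field_simp
      have h1 : (1 - l) • ψ + l • φ ∈ cap K x t := by
        refine ⟨pol_convex K hψ.1 hφ (by linarith) hl0.le (by ring), ?_⟩
        rw [inner_add_right, inner_smul_right, inner_smul_right]
        have h2 := hψ.2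
        have h3 : ⟪x, φ⟫ = 1 - κ := by rw [hκdef]; ring
        rw [h3]
        nlinarith
      have h2 := hv _ h1
      have h3 := hv _ hψ'
      rw [inner_add_right, inner_smul_right, inner_smul_right] at h2
      have h4 : l * |⟪v, φ⟫| ≤ 2 := by
        have h5 : |l * ⟪v, φ⟫| ≤ |(1 - l) * ⟪v, ψ⟫ + l * ⟪v, φ⟫| + |(1 - l) * ⟪v, ψ⟫| := by
          have := abs_sub ((1 - l) * ⟪v, ψ⟫ + l * ⟪v, φ⟫) ((1 - l) * ⟪v, ψ⟫)
          have e : (1 - l) * ⟪v, ψ⟫ + l * ⟪v, φ⟫ - (1 - l) * ⟪v, ψ⟫ = l * ⟪v, φ⟫ := by ring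
          rwa [e] at this
        rw [abs_mul, abs_of_pos hl0, abs_mul (1 - l), abs_of_nonneg (by linarith : 0 ≤ 1 - l)] at h5
        nlinarith [abs_nonneg (⟪v, ψ⟫)]
      have h5 : |⟪v, φ⟫| ≤ 2 / l := by
        rw [le_div_iff₀ hl0]; linarith
      have h6 : 2 / l = 2 * κ / (t - σ) := by
        rw [hl]; field_simp
      have h7 : 2 * κ / (t - σ) ≤ (n - 1) * κ := by
        rw [div_le_iff₀ hts]
        have h8 : 2 ≤ ((n : ℝ) - 1) * (t - σ) := by
          have h9 : ((n : ℝ) - 1) * (4 / (n : ℝ)) ≤ ((n : ℝ) - 1) * (t - σ) :=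
            mul_le_mul_of_nonneg_left hσt (by linarith)
          have h10 : 2 ≤ ((n : ℝ) - 1) * (4 / (n : ℝ)) := by
            rw [mul_div_assoc', le_div_iff₀ hn0]; linarith
          linarith
        nlinarith
      linarith
  constructor
  · apply mem_of_pol hK
    intro φ hφ
    have h1 := key φ hφ
    rw [inner_add_left, inner_smul_left, inner_smul_left]
    simp only [conj_trivial]
    have h2 := le_abs_self ⟪v, φ⟫
    have h3 : (1 / (n : ℝ)) * ⟪v, φ⟫ ≤ (1 / (n : ℝ)) * (1 + (n - 1) * (1 - ⟪x, φ⟫)) := by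
      gcongr; linarith
    have h4 : (1 / (n : ℝ)) * (1 + (n - 1) * (1 - ⟪x, φ⟫)) = 1 - (1 - 1 / (n : ℝ)) * ⟪x, φ⟫ := by
      field_simp; ring
    linarith
  · apply mem_of_pol hK
    intro φ hφ
    have h1 := key φ hφ
    rw [inner_sub_left, inner_smul_left, inner_smul_left]
    simp only [conj_trivial]
    have h2 := neg_abs_le ⟪v, φ⟫
    have h3 : (1 / (n : ℝ)) * (-⟪v, φ⟫) ≤ (1 / (n : ℝ)) * (1 + (n - 1) * (1 - ⟪x, φ⟫)) := by
      gcongr; linarith
    have h4 : (1 / (n : ℝ)) * (1 + (n - 1) * (1 - ⟪x, φ⟫)) = 1 - (1 - 1 / (n : ℝ)) * ⟪x, φ⟫ := by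
      field_simp; ring
    linarith

end Pool.Agent.J4H21
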