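import Mathlib
import Pool.Agent.J4H21.Pol

set_option autoImplicit false

/-!
The cap of the polar body of functionals which are nearly maximal at a bad point is large.
-/

namespace Pool.Agent.J4H21

open MeasureTheory Module Set
open scoped Pointwise ENNReal RealInnerProductSpace
open Pool.Agent.N605.RB Pool.Agent.H845R2

variable {n : ℕ}

theorem Lx_isClosed (K : Set (EuclideanSpace ℝ (Fin n))) (x : EuclideanSpace ℝ (Fin n)) (t : ℝ) :
    IsClosed (Lx K x t) := by
  have : Lx K x t = ⋂ θ ∈ cap K x t, {v | |⟪v, θ⟫| ≤ 1} := by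
    ext v; simp [Lx]
  rw [this]
  exact isClosed_biInter fun θ _ => isClosed_le (by fun_prop) continuous_const

theorem Lx_convex (K : Set (EuclideanSpace ℝ (Fin n))) (x : EuclideanSpace ℝ (Fin n)) (t : ℝ) :
    Convex ℝ (Lx K x t) := by
  intro v hv w hw a b ha hb hab θ hθ
  rw [inner_add_left, inner_smul_left, inner_smul_left]
  simp only [conj_trivial]
  have h1 := hv θ hθ
  have h2 := hw θ hθ
  calc |a * ⟪v, θ⟫ + b * ⟪w, θ⟫| ≤ |a * ⟪v, θ⟫| + |b * ⟪w, θ⟫| := abs_add_le _ _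
    _ = a * |⟪v, θ⟫| + b * |⟪w, θ⟫| := by
        rw [abs_mul, abs_mul, abs_of_nonneg ha, abs_of_nonneg hb]
    _ ≤ a * 1 + b * 1 := by gcongr
    _ = 1 := by linarith

theorem symPart_subset_Lx (K : Set (EuclideanSpace ℝ (Fin n))) (x : EuclideanSpace ℝ (Fin n))
    (t : ℝ) : symPart K 0 ⊆ Lx K x t := by
  intro s hs θ hθ
  have h1 := hθ.1 _ hs.1
  have h2 := hθ.1 _ hs.2
  rw [zero_add] at h1
  rw [zero_sub, inner_neg_left] at h2
  rw [abs_le]
  constructor <;> linarith

theorem Lx_subset_smul (hn : 2 ≤ n) {K : Set (EuclideanSpace ℝ (Fin n))} (hK : CB0 K)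
    {x ψ : EuclideanSpace ℝ (Fin n)} (hx : x ∈ K)
    {σ t : ℝ} (hψ : ψ ∈ cap K x σ) (hσ : 0 ≤ σ) (hσt : 4 / (n : ℝ) ≤ t - σ) :
    Lx K x t ⊆ (n : ℝ) • symPart K ((1 - 1 / (n : ℝ)) • x) := by
  intro v hv
  have hn0 : (0 : ℝ) < n := by positivity
  rw [Set.mem_smul_set_iff_inv_smul_mem₀ hn0.ne', ← one_div]
  exact Lx_subset hn hK hx hψ hσ hσt hv

theorem Lx_sb (hn : 2 ≤ n) {K : Set (EuclideanSpace ℝ (Fin n))} (hK : CB0 K)
    {x ψ : EuclideanSpace ℝ (Fin n)} (hx : x ∈ K)
    {σ t : ℝ} (hψ : ψ ∈ cap K x σ) (hσ : 0 ≤ σ) (hσt : 4 / (n : ℝ) ≤ t - σ) :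
    SB (Lx K x t) where
  comp := ((symPart_isCompact hK.comp _).smul (n : ℝ)).of_isClosed_subset (Lx_isClosed K x t)
    (Lx_subset_smul hn hK hx hψ hσ hσt)
  conv := Lx_convex K x t
  symm := by
    intro v hv θ hθ
    rw [inner_neg_left, abs_neg]
    exact hv θ hθ
  int := ⟨0, interior_mono (symPart_subset_Lx K x t) (symPart_zero_nhds hK)⟩

theorem sym_sb {K : Set (EuclideanSpace ℝ (Fin n))} (hK : CB0 K) : SB (symPart K 0) where
  comp := symPart_isCompact hK.comp 0
  conv := symPart_convex hK.conv 0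
  symm := fun _ hs => symPart_neg hs
  int := ⟨0, symPart_zero_nhds hK⟩

theorem pol_sub_pol_sym (K : Set (EuclideanSpace ℝ (Fin n))) : pol K ⊆ pol (symPart K 0) := by
  apply pol_anti
  intro s hs
  simpa using hs.1

theorem bm_real {L : Set (EuclideanSpace ℝ (Fin n))} (hL : SB L) :
    Real.pi ^ n ≤ 4 ^ n * n.factorial * ((volume L).toReal * (volume (pol L)).toReal) := by
  have h := hL.bourgain_milman
  rw [finrank_euclideanSpace_fin] at h
  have hL1 : volume L ≠ ⊤ := hL.comp.measure_lt_top.ne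
  have hL2 : volume (pol L) ≠ ⊤ := hL.pol.comp.measure_lt_top.ne
  have h2 := ENNReal.toReal_mono (by
    unfold MV
    exact ENNReal.mul_ne_top (ENNReal.mul_ne_top (by simp) (by simp))
      (ENNReal.mul_ne_top hL1 hL2)) h
  rw [ENNReal.toReal_ofReal (by positivity)] at h2
  simpa [MV, ENNReal.toReal_mul] using h2

theorem vol_polar_Lx (hn : 2 ≤ n) {K : Set (EuclideanSpace ℝ (Fin n))} (hK : CB0 K)
    {x ψ : EuclideanSpace ℝ (Fin n)} (hx : x ∈ K)
    {σ t : ℝ} (hψ : ψ ∈ cap K x σ) (hσ : 0 ≤ σ) (hσt : 4 / (n : ℝ) ≤ t - σ) {β : ℝ} (hβ : 0 < β)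
    (hy : rad K ((1 - 1 / (n : ℝ)) • x) ≤ β / n * rad K 0) :
    (volume (pol K)).toReal ≤ (8 * Real.exp 1 * β) ^ n * (volume (pol (Lx K x t))).toReal := by
  have hn0 : 0 < n := by omega
  have hnr : (0 : ℝ) < n := by exact_mod_cast hn0
  have hLsb := Lx_sb hn hK hx hψ hσ hσt
  have h1 := bm_real hLsb
  have h2 := santalo_bound hn0 (sym_sb hK)
  have h3 : (volume (pol K)).toReal ≤ (volume (pol (symPart K 0))).toReal :=
    ENNReal.toReal_mono (sym_sb hK).pol.comp.measure_lt_top.ne (measure_mono (pol_sub_pol_sym K))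
  have hs := rad_zero_pos hK
  have hS : (volume (symPart K 0)).toReal = rad K 0 ^ n := (rad_pow hn0 K 0).symm
  have h4 : (volume (Lx K x t)).toReal ≤ (β * rad K 0) ^ n := by
    have h5 : volume (Lx K x t) ≤ volume ((n : ℝ) • symPart K ((1 - 1 / (n : ℝ)) • x)) :=
      measure_mono (Lx_subset_smul hn hK hx hψ hσ hσt)
    have h6 := ENNReal.toReal_mono (((symPart_isCompact hK.comp _).smul (n : ℝ)).measure_lt_top.ne)
      h5
    rw [Measure.addHaar_smul, finrank_euclideanSpace_fin, abs_of_nonneg (by positivity),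
      ENNReal.toReal_mul, ENNReal.toReal_ofReal (by positivity), ← rad_pow hn0, ← mul_pow] at h6
    refine h6.trans ?_
    refine pow_le_pow_left₀ (mul_nonneg hnr.le (rad_nonneg _ _)) ?_ n
    calc (n : ℝ) * rad K ((1 - 1 / (n : ℝ)) • x) ≤ n * (β / n * rad K 0) := by gcongr
      _ = β * rad K 0 := by field_simp
  set V := (volume (pol (Lx K x t))).toReal with hV
  have hV0 : 0 ≤ V := ENNReal.toReal_nonneg
  set W := (volume (pol K)).toReal with hW
  rw [hS] at h2
  have h5 : rad K 0 ^ n * W ≤ (2 * Real.pi * Real.exp 1 / n) ^ n :=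
    le_trans (by gcongr) h2
  have h6 : Real.pi ^ n ≤ 4 ^ n * n.factorial * ((β * rad K 0) ^ n * V) :=
    h1.trans (by gcongr)
  have hfac : (n.factorial : ℝ) ≤ (n : ℝ) ^ n := by exact_mod_cast Nat.factorial_le_pow n
  have h7 : Real.pi ^ n ≤ 4 ^ n * (n : ℝ) ^ n * ((β * rad K 0) ^ n * V) :=
    h6.trans (by gcongr)
  have hrn : 0 < rad K 0 ^ n := by positivity
  refine le_of_mul_le_mul_left ?_ hrn
  calc rad K 0 ^ n * W ≤ (2 * Real.pi * Real.exp 1 / n) ^ n := h5
    _ = (2 * Real.exp 1 / n) ^ n * Real.pi ^ n := by rw [← mul_pow]; congr 1; ring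
    _ ≤ (2 * Real.exp 1 / n) ^ n * (4 ^ n * (n : ℝ) ^ n * ((β * rad K 0) ^ n * V)) := by gcongr
    _ = rad K 0 ^ n * ((8 * Real.exp 1 * β) ^ n * V) := by
        have e0 : ((2 * Real.exp 1 / n) * 4 * n * (β * rad K 0)) ^ n =
            (2 * Real.exp 1 / n) ^ n * 4 ^ n * (n : ℝ) ^ n * (β * rad K 0) ^ n := by
          rw [← mul_pow, ← mul_pow, ← mul_pow]
        have e : (2 * Real.exp 1 / n) ^ n * (4 ^ n * (n : ℝ) ^ n * ((β * rad K 0) ^ n * V)) =
            ((2 * Real.exp 1 / n) * 4 * n * (β * rad K 0)) ^ n * V := by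
          rw [e0]; ring
        have e2 : (2 * Real.exp 1 / n) * 4 * n * (β * rad K 0) =
            rad K 0 * (8 * Real.exp 1 * β) := by field_simp; ring
        rw [e, e2, mul_pow, mul_assoc]

/-- the polar of `Lx` is covered by few translates of twice the difference body of the cap -/
theorem pol_Lx_subset (hn : 2 ≤ n) {K : Set (EuclideanSpace ℝ (Fin n))} (hK : CB0 K)
    {x ψ : EuclideanSpace ℝ (Fin n)}
    {σ t : ℝ} (hψ : ψ ∈ cap K x σ) (hσ : 0 ≤ σ) (hσt : 4 / (n : ℝ) ≤ t - σ) :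
    pol (Lx K x t) ⊆ ⋃ j ∈ Finset.range (2 * n + 1),
      (fun z => (((j : ℝ) - n) / n) • ψ + z) '' ((2 : ℝ) • (cap K x t - cap K x t)) := by
  have hn0 : (0 : ℝ) < n := by positivity
  have hts : 0 < t - σ := lt_of_lt_of_le (by positivity) hσt
  have hψ' : ψ ∈ cap K x t := ⟨hψ.1, by have := hψ.2; linarith⟩
  set P := cap K x t with hP
  have hPc : IsCompact P := cap_isCompact hK x t
  have hPv : Convex ℝ P := cap_convex K x t
  have hDv : Convex ℝ (P - P) := hPv.sub hPv
  -- the convex set `[-ψ, ψ] + (P - P)`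
  set C : Set (EuclideanSpace ℝ (Fin n)) := segment ℝ (-ψ) ψ + (P - P) with hC
  have hCv : Convex ℝ C := (convex_segment _ _).add hDv
  have hPPc : IsCompact (P - P) := by
    rw [sub_eq_add_neg]
    exact hPc.add hPc.neg
  have hsegc : IsCompact (segment ℝ (-ψ) ψ) := by
    rw [segment_eq_image_lineMap]
    exact isCompact_Icc.image (by fun_prop)
  have hCc : IsCompact C := hsegc.add hPPc
  have h0C : (0 : EuclideanSpace ℝ (Fin n)) ∈ C := by
    refine ⟨0, ⟨1 / 2, 1 / 2, by norm_num, by norm_num, by norm_num, by simp⟩, 0,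
      ⟨ψ, hψ', ψ, hψ', by simp⟩, by simp⟩
  have h1 : pol (Lx K x t) ⊆ C := by
    intro w hw
    by_contra hwC
    obtain ⟨f, u, h1, h2⟩ := geometric_hahn_banach_closed_point hCv hCc.isClosed hwC
    have hu : 0 < u := by
      have := h1 0 h0C
      simpa using this
    set y := (InnerProductSpace.toDual ℝ (EuclideanSpace ℝ (Fin n))).symm f with hy
    have hfy : ∀ z, f z = ⟪z, y⟫ := by
      intro z
      rw [real_inner_comm, hy, InnerProductSpace.toDual_symm_apply]
    have h3 : u⁻¹ • y ∈ Lx K x t := by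
      intro θ hθ
      have h4 : f θ ≤ u := by
        refine (h1 θ ?_).le
        exact ⟨ψ, right_mem_segment _ _ _, θ - ψ, ⟨θ, hθ, ψ, hψ', rfl⟩, by simp⟩
      have h5 : f (-θ) ≤ u := by
        refine (h1 (-θ) ?_).le
        exact ⟨-ψ, left_mem_segment _ _ _, ψ - θ, ⟨ψ, hψ', θ, hθ, rfl⟩, by
          show -ψ + (ψ - θ) = -θ
          abel⟩
      rw [map_neg] at h5
      rw [inner_smul_left, real_inner_comm, ← hfy]
      simp only [conj_trivial]
      rw [abs_mul, abs_of_pos (inv_pos.mpr hu), inv_mul_le_iff₀ hu, mul_one, abs_le]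
      constructor <;> linarith
    have h4 := hw _ h3
    rw [inner_smul_left, real_inner_comm, ← hfy] at h4
    simp only [conj_trivial] at h4
    rw [inv_mul_le_iff₀ hu, mul_one] at h4
    linarith
  intro w hw
  obtain ⟨r', ⟨a, b, ha, hb, hab, rfl⟩, d, hd, rfl⟩ := h1 hw
  -- `a • (-ψ) + b • ψ = (b - a) • ψ`
  set j := ⌊(n : ℝ) * (2 * b)⌋₊ with hj
  have hb1 : b ≤ 1 := by linarith
  have hjle : (j : ℝ) ≤ n * (2 * b) := Nat.floor_le (by positivity)
  have hjlt : (n : ℝ) * (2 * b) < j + 1 := Nat.lt_floor_add_one _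
  rw [Set.mem_iUnion₂]
  refine ⟨j, ?_, ?_⟩
  · rw [Finset.mem_range]
    have : (j : ℝ) ≤ 2 * n := by
      calc (j : ℝ) ≤ n * (2 * b) := hjle
        _ ≤ n * (2 * 1) := by gcongr
        _ = 2 * n := by ring
    have h5 : j ≤ 2 * n := by exact_mod_cast this
    omega
  · set ε := 2 * b - j / n with hε
    have hε0 : 0 ≤ ε := by
      rw [hε, sub_nonneg, div_le_iff₀ hn0]; linarith
    have hε1 : ε ≤ 1 / n := by
      rw [hε, sub_le_iff_le_add, ← add_div, le_div_iff₀ hn0]; linarith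
    have hε2 : ε ≤ 1 := hε1.trans (by
      rw [div_le_one hn0]
      have : (2 : ℝ) ≤ n := by exact_mod_cast hn
      linarith)
    have hε3 : ε ≤ t - σ := hε1.trans (by
      refine le_trans ?_ hσt
      gcongr
      norm_num)
    have h5 : ε • ψ ∈ P - P := by
      refine ⟨ψ, hψ', (1 - ε) • ψ, cap_shrink hψ hσ hε0 hε2 hε3, ?_⟩
      simp only
      rw [sub_smul, one_smul]; abel
    refine ⟨ε • ψ + d, ?_, ?_⟩
    · have h6 := hDv h5 hd (show (0 : ℝ) ≤ 1 / 2 by norm_num) (show (0 : ℝ) ≤ 1 / 2 by norm_num)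
        (by norm_num)
      refine ⟨_, h6, ?_⟩
      simp only
      rw [← smul_add, smul_smul]
      norm_num
    · simp only
      rw [← add_assoc, ← add_smul]
      congr 1
      rw [smul_neg, ← neg_smul, ← add_smul]
      congr 1
      rw [hε]
      have : a = 1 - b := by linarith
      rw [this]
      field_simp
      ring

/-- **The cap is large.** -/
theorem vol_cap (hn : 2 ≤ n) {K : Set (EuclideanSpace ℝ (Fin n))} (hK : CB0 K)
    {x ψ : EuclideanSpace ℝ (Fin n)} (hx : x ∈ K)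
    {σ t : ℝ} (hψ : ψ ∈ cap K x σ) (hσ : 0 ≤ σ) (hσt : 4 / (n : ℝ) ≤ t - σ) {β : ℝ} (hβ : 0 < β)
    (hy : rad K ((1 - 1 / (n : ℝ)) • x) ≤ β / n * rad K 0) :
    (volume (pol K)).toReal ≤
      (2 * n + 1) * (64 * Real.exp 1 * β) ^ n * (volume (cap K x t)).toReal := by
  have hn0 : (0 : ℝ) < n := by positivity
  have hts : 0 < t - σ := lt_of_lt_of_le (by positivity) hσt
  have h1 := vol_polar_Lx hn hK hx hψ hσ hσt hβ hy
  have h2 := pol_Lx_subset hn hK hψ hσ hσt
  set P := cap K x t with hP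
  have hPc : IsCompact P := cap_isCompact hK x t
  have hPf : volume P ≠ ⊤ := hPc.measure_lt_top.ne
  have hrs := rs hPc (cap_convex K x t) (cap_int_nonempty hK hψ hσ (by linarith))
  have h3 : volume (pol (Lx K x t)) ≤ ((2 * n + 1 : ℕ) : ℝ≥0∞) * (2 ^ n * (4 ^ n * volume P)) := by
    calc volume (pol (Lx K x t)) ≤ volume (⋃ j ∈ Finset.range (2 * n + 1),
          (fun z => (((j : ℝ) - n) / n) • ψ + z) '' ((2 : ℝ) • (P - P))) := measure_mono h2
      _ ≤ ∑ j ∈ Finset.range (2 * n + 1),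
          volume ((fun z => (((j : ℝ) - n) / n) • ψ + z) '' ((2 : ℝ) • (P - P))) :=
          measure_biUnion_finset_le _ _
      _ = ∑ j ∈ Finset.range (2 * n + 1), 2 ^ n * volume (P - P) := by
          refine Finset.sum_congr rfl fun j _ => ?_
          rw [Set.image_add_left, measure_preimage_add, Measure.addHaar_smul,
            finrank_euclideanSpace_fin, abs_of_nonneg (by positivity),
            ENNReal.ofReal_pow (by norm_num)]
          norm_num
      _ = ((2 * n + 1 : ℕ) : ℝ≥0∞) * (2 ^ n * volume (P - P)) := by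
          rw [Finset.sum_const, Finset.card_range, nsmul_eq_mul]
      _ ≤ _ := by gcongr
  have h4 : (volume (pol (Lx K x t))).toReal ≤ (2 * n + 1) * (2 ^ n * (4 ^ n * (volume P).toReal)) := by
    have := ENNReal.toReal_mono (by
      refine ENNReal.mul_ne_top (ENNReal.natCast_ne_top _) (ENNReal.mul_ne_top (by simp)
        (ENNReal.mul_ne_top (by simp) hPf))) h3
    rw [ENNReal.toReal_mul, ENNReal.toReal_natCast] at this
    push_cast at this
    simpa [ENNReal.toReal_mul] using this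
  calc (volume (pol K)).toReal ≤
      (8 * Real.exp 1 * β) ^ n * (volume (pol (Lx K x t))).toReal := h1
    _ ≤ (8 * Real.exp 1 * β) ^ n * ((2 * n + 1) * (2 ^ n * (4 ^ n * (volume P).toReal))) := by
        gcongr
    _ = (2 * n + 1) * (64 * Real.exp 1 * β) ^ n * (volume P).toReal := by
        have e : (64 * Real.exp 1 * β) ^ n = (8 * Real.exp 1 * β) ^ n * 2 ^ n * 4 ^ n := by
          rw [← mul_pow, ← mul_pow]; congr 1; ring
        rw [e]; ring

end Pool.Agent.J4H21
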