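import Mathlib
import Pool.Agent.J4H21.Pol2
import Pool.Agent.H2R2.Cov2

set_option autoImplicit false

/-!
Many functionals cut off a cap of bad points around a given bad point.
-/

namespace Pool.Agent.J4H21

open MeasureTheory Module Set
open scoped Pointwise ENNReal RealInnerProductSpace
open Pool.Agent.N605.RB Pool.Agent.H845R2

variable {n : ℕ}

theorem point_data (hn : 2 ≤ n) {K : Set (EuclideanSpace ℝ (Fin n))} (hK : CB0 K)
    {α β : ℝ} (hα : 0 ≤ α) (hβ : β = α + 2) (hβn : 8 * β ≤ n)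
    {x : EuclideanSpace ℝ (Fin n)} (hx : x ∈ Bad K (1 + α / n)) :
    ∃ (Θ : Set (EuclideanSpace ℝ (Fin n))) (b : ℝ), Θ ⊆ pol K ∧ IsCompact Θ ∧
      (volume (pol K)).toReal ≤
        (2 * n + 1) * (576 * Real.exp 1 * β ^ 2) ^ n * (volume Θ).toReal ∧
      ∀ μ ∈ Θ, b ≤ ⟪x, μ⟫ ∧ ∀ z ∈ K, b - 1 / (8 * n) ≤ ⟪z, μ⟫ → z ∈ Bad K (1 + β / n) := by
  have hn0 : 0 < n := by omega
  have hnr : (0 : ℝ) < n := by exact_mod_cast hn0
  have hn2 : (2 : ℝ) ≤ n := by exact_mod_cast hn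
  have hβ2 : 2 ≤ β := by linarith
  have hs1 : (1 : ℝ) / n ≤ 1 := by rw [div_le_one hnr]; linarith
  obtain ⟨y, hy⟩ : ∃ y : EuclideanSpace ℝ (Fin n), y = (1 - 1 / (n : ℝ)) • x := ⟨_, rfl⟩
  have hyB : y ∈ Bad K (1 + β / n) := by
    have h1 := bad_shrink hn0 hK (s := 1 / (n : ℝ)) (by positivity) hs1 hx
    rw [← hy] at h1
    refine ⟨h1.1, h1.2.trans ?_⟩
    have h2 := rad_zero_pos hK
    have h3 : (1 + 1 / (n : ℝ)) * (1 + α / n) ≤ 1 + β / n := by
      have e : (1 + 1 / (n : ℝ)) * (1 + α / n) = 1 + (α + 1 + α / n) / n := by field_simp; ring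
      rw [e]
      have h4 : α / n ≤ 1 := by rw [div_le_one hnr]; linarith
      gcongr
      linarith
    gcongr
  obtain ⟨σ, hσ⟩ : ∃ σ : ℝ, σ = 2 * β / n := ⟨_, rfl⟩
  have hσ0 : 0 < σ := by rw [hσ]; positivity
  have hσ1 : σ ≤ 1 / 4 := by rw [hσ, div_le_iff₀ hnr]; linarith
  have hqσ : 1 + β / n < 1 + σ := by
    rw [hσ]
    have : 0 < β / n := by positivity
    have e : 2 * β / n = β / n + β / n := by ring
    rw [e]; linarith
  obtain ⟨ψ, hψ1, hψ2, hψ3⟩ := exists_sep hn0 hK hσ0 (by linarith) hqσ hyB.1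
    ((bad_iff hyB.1).mp hyB)
  have hyx : ⟪y, ψ⟫ = (1 - 1 / (n : ℝ)) * ⟪x, ψ⟫ := by
    rw [hy, inner_smul_left]; simp
  obtain ⟨X, hX⟩ : ∃ X : ℝ, X = ⟪x, ψ⟫ := ⟨_, rfl⟩
  rw [← hX] at hyx
  have hXσ : 1 - σ ≤ X := by
    have h1 : 1 - σ ≤ (1 - 1 / (n : ℝ)) * X := by rw [← hyx]; exact hψ2
    have h2 : 0 ≤ 1 - 1 / (n : ℝ) := by linarith
    have h3 : 0 < 1 / (n : ℝ) := by positivity
    have h4 : 0 < X := by
      by_contra h
      push Not at h
      have := mul_nonpos_of_nonneg_of_nonpos h2 h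
      linarith
    nlinarith
  have hψσ : ψ ∈ cap K x σ := ⟨hψ1, by rw [← hX]; exact hXσ⟩
  obtain ⟨t, ht⟩ : ∃ t : ℝ, t = 4 * β / n := ⟨_, rfl⟩
  have htσ : 4 / (n : ℝ) ≤ t - σ := by
    rw [ht, hσ, ← sub_div]
    gcongr
    linarith
  have hvol := vol_cap hn hK hx.1 hψσ hσ0.le htσ (β := β) (by linarith) (by
    rw [← hy]
    have := rad_le_of_bad hn0 hK hyB
    simpa using this)
  obtain ⟨τ, hτ⟩ : ∃ τ : ℝ, τ = 8 * β := ⟨_, rfl⟩
  have hτ0 : 0 < τ := by rw [hτ]; linarith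
  have hP := cap_isCompact hK x t
  refine ⟨(fun z => (τ / (1 + τ)) • ψ + z) '' ((1 / (1 + τ)) • cap K x t),
    (1 - t + τ * X) / (1 + τ), ?_, ?_, ?_, ?_⟩
  · rintro _ ⟨_, ⟨θ, hθ, rfl⟩, rfl⟩
    exact pol_convex K hψ1 hθ.1 (by positivity) (by positivity) (by field_simp; ring)
  · exact (hP.smul _).image (by fun_prop)
  · rw [Set.image_add_left, measure_preimage_add, Measure.addHaar_smul,
      finrank_euclideanSpace_fin, abs_of_nonneg (by positivity), ENNReal.toReal_mul,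
      ENNReal.toReal_ofReal (by positivity)]
    refine hvol.trans ?_
    have h1 : (64 * Real.exp 1 * β) ^ n ≤ (576 * Real.exp 1 * β ^ 2) ^ n * (1 / (1 + τ)) ^ n := by
      rw [← mul_pow]
      refine pow_le_pow_left₀ (by positivity) ?_ n
      rw [mul_one_div, le_div_iff₀ (by positivity), hτ]
      have : 64 * Real.exp 1 * β * (1 + 8 * β) ≤ 64 * Real.exp 1 * β * (9 * β) := by
        gcongr; linarith
      nlinarith
    have h2 : 0 ≤ (volume (cap K x t)).toReal := ENNReal.toReal_nonneg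
    calc (2 * (n : ℝ) + 1) * (64 * Real.exp 1 * β) ^ n * (volume (cap K x t)).toReal
        ≤ (2 * n + 1) * ((576 * Real.exp 1 * β ^ 2) ^ n * (1 / (1 + τ)) ^ n) *
          (volume (cap K x t)).toReal := by gcongr
      _ = _ := by ring
  · rintro _ ⟨_, ⟨θ, hθ, rfl⟩, rfl⟩
    have e : ∀ z : EuclideanSpace ℝ (Fin n), ⟪z, (τ / (1 + τ)) • ψ + (1 / (1 + τ)) • θ⟫ =
        (τ * ⟪z, ψ⟫ + ⟪z, θ⟫) / (1 + τ) := by
      intro z
      rw [inner_add_right, inner_smul_right, inner_smul_right]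
      field_simp
    simp only
    constructor
    · rw [e, ← hX]
      have := hθ.2
      exact div_le_div_of_nonneg_right (by linarith) (by positivity)
    · intro z hz hzb
      rw [bad_iff hz]
      intro hzG
      rw [e] at hzb
      have h1 := hψ3 z hzG
      rw [hyx] at h1
      have h2 := hθ.1 z hz
      have h3 : (τ * ⟪z, ψ⟫ + ⟪z, θ⟫) / (1 + τ) ≤ (τ * ((1 - 1 / (n : ℝ)) * X) + 1) / (1 + τ) := by
        gcongr
      have h4 := hzb.trans h3
      have h5 : (1 - t + τ * X) - (1 + τ) * (1 / (8 * n)) ≤ τ * ((1 - 1 / (n : ℝ)) * X) + 1 := by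
        have h6 : (1 - t + τ * X) / (1 + τ) - 1 / (8 * n) =
            ((1 - t + τ * X) - (1 + τ) * (1 / (8 * n))) / (1 + τ) := by
          field_simp
        rw [h6, div_le_div_iff_of_pos_right (by positivity)] at h4
        exact h4
      have h7 : τ * X / n ≤ t + (1 + τ) * (1 / (8 * n)) := by
        have e7 : τ * ((1 - 1 / (n : ℝ)) * X) = τ * X - τ * X / n := by ring
        rw [e7] at h5
        linarith
      rw [ht, hτ] at h7
      have h8 : 8 * β * X ≤ 4 * β + (1 + 8 * β) / 8 := by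
        have h9 : 4 * β / n + (1 + 8 * β) * (1 / (8 * n)) = (4 * β + (1 + 8 * β) / 8) / n := by
          field_simp
        rw [h9, div_le_div_iff_of_pos_right hnr] at h7
        exact h7
      have h10 : 3 / 4 ≤ X := by linarith
      nlinarith

/-- averaging -/
theorem exists_many {ι : Type*} (s : Finset ι) {M : Set (EuclideanSpace ℝ (Fin n))}
    (hM0 : volume M ≠ 0) (hM1 : volume M ≠ ⊤)
    (Θ : ι → Set (EuclideanSpace ℝ (Fin n))) (hΘM : ∀ i ∈ s, Θ i ⊆ M)
    (hΘ : ∀ i ∈ s, MeasurableSet (Θ i)) (C : ℝ)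
    (hC : ∀ i ∈ s, (volume M).toReal ≤ C * (volume (Θ i)).toReal) :
    ∃ μ ∈ M, (s.card : ℝ) ≤ C * ((open Classical in s.filter (fun i => μ ∈ Θ i)).card : ℝ) := by
  classical
  obtain ⟨f, hf⟩ : ∃ f : EuclideanSpace ℝ (Fin n) → ℝ,
    f = fun z => ∑ i ∈ s, (Θ i).indicator (fun _ => (1 : ℝ)) z := ⟨_, rfl⟩
  have hΘf : ∀ i ∈ s, volume (Θ i) ≠ ⊤ := fun i hi =>
    ne_top_of_le_ne_top hM1 (measure_mono (hΘM i hi))
  have hint : ∀ i ∈ s, Integrable ((Θ i).indicator (fun _ => (1 : ℝ)))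
      (volume : Measure (EuclideanSpace ℝ (Fin n))) := by
    intro i hi
    rw [integrable_indicator_iff (hΘ i hi)]
    exact integrableOn_const (hΘf i hi)
  have hfi : Integrable f volume := by
    rw [hf]
    exact integrable_finsetSum _ hint
  obtain ⟨μ, hμM, hμ⟩ := exists_setAverage_le hM0 hM1 hfi.integrableOn
  have hMr : 0 < (volume M).toReal := ENNReal.toReal_pos hM0 hM1
  refine ⟨μ, hμM, ?_⟩
  have h1 : f μ = ((s.filter (fun i => μ ∈ Θ i)).card : ℝ) := by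
    rw [hf, Finset.card_filter]
    push_cast
    refine Finset.sum_congr rfl fun i _ => ?_
    simp only [Set.indicator_apply]
  have h2 : ∫ z in M, f z = ∑ i ∈ s, (volume (Θ i)).toReal := by
    rw [hf, integral_finsetSum _ (fun i hi => (hint i hi).integrableOn)]
    refine Finset.sum_congr rfl fun i hi => ?_
    rw [integral_indicator_const _ (hΘ i hi), smul_eq_mul, mul_one, measureReal_def,
      Measure.restrict_apply (hΘ i hi), Set.inter_eq_left.mpr (hΘM i hi)]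
  rw [setAverage_eq, h2, smul_eq_mul, h1, measureReal_def, inv_mul_le_iff₀ hMr] at hμ
  have h3 : (s.card : ℝ) * (volume M).toReal ≤ C * ∑ i ∈ s, (volume (Θ i)).toReal := by
    rw [Finset.mul_sum, ← nsmul_eq_mul]
    exact Finset.card_nsmul_le_sum _ _ _ hC
  by_cases hs : s.card = 0
  · rw [Finset.card_eq_zero] at hs
    simp [hs]
  have hs' : (0 : ℝ) < s.card := by positivity
  have hC0 : 0 < C := by
    by_contra hcon
    push Not at hcon
    have h4 : 0 ≤ ∑ i ∈ s, (volume (Θ i)).toReal :=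
      Finset.sum_nonneg fun i _ => ENNReal.toReal_nonneg
    have h5 := mul_nonpos_of_nonpos_of_nonneg hcon h4
    have h6 : 0 < (s.card : ℝ) * (volume M).toReal := by positivity
    linarith
  have h4 : (s.card : ℝ) * (volume M).toReal ≤
      C * ((s.filter (fun i => μ ∈ Θ i)).card : ℝ) * (volume M).toReal := by
    calc (s.card : ℝ) * (volume M).toReal ≤ C * ∑ i ∈ s, (volume (Θ i)).toReal := h3
      _ ≤ C * ((volume M).toReal * ((s.filter (fun i => μ ∈ Θ i)).card : ℝ)) := by gcongr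
      _ = _ := by ring
  exact le_of_mul_le_mul_right h4 hMr

end Pool.Agent.J4H21
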