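import Mathlib
import Pool.Agent.J4H21.Theta

set_option autoImplicit false

/-!
The number of separated bad points.
-/

namespace Pool.Agent.J4H21

open MeasureTheory Module Set
open scoped Pointwise ENNReal RealInnerProductSpace
open Pool.Agent.N605.RB Pool.Agent.H845R2 Pool.Agent.H2R2.Cov

variable {n : ℕ}

/-- `A` is `δ`-separated with respect to the symmetric part of `K`. -/
def Sep (K : Set (EuclideanSpace ℝ (Fin n))) (δ : ℝ) (A : Finset (EuclideanSpace ℝ (Fin n))) :
    Prop := ∀ a ∈ A, ∀ b ∈ A, a ≠ b → ∀ s ∈ symPart K 0, a ≠ b + δ • s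

/-- packing -/
theorem pack (hn : 0 < n) {K : Set (EuclideanSpace ℝ (Fin n))} (hK : CB0 K) {δ : ℝ} (hδ : 0 < δ)
    {A : Finset (EuclideanSpace ℝ (Fin n))} (hA : Sep K δ A)
    {M : Set (EuclideanSpace ℝ (Fin n))} (hM : IsCompact M)
    (hAM : ∀ a ∈ A, ∀ s ∈ symPart K 0, a + (δ / 2) • s ∈ M) :
    (A.card : ℝ) * (δ / 2 * rad K 0) ^ n ≤ (volume M).toReal := by
  classical
  set S := symPart K 0 with hS
  have hSc : IsCompact S := symPart_isCompact hK.comp 0
  have hδ2 : 0 < δ / 2 := by positivity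
  have hL : volume ((δ / 2) • S) = ENNReal.ofReal ((δ / 2) ^ n) * volume S := by
    rw [Measure.addHaar_smul, finrank_euclideanSpace_fin, abs_of_nonneg (by positivity)]
  have hLr : volume.real ((δ / 2) • S) = (δ / 2 * rad K 0) ^ n := by
    rw [measureReal_def, hL, ENNReal.toReal_mul, ENNReal.toReal_ofReal (by positivity), mul_pow,
      rad_pow hn]
  have hL0 : volume ((δ / 2) • S) ≠ 0 := by
    rw [hL]
    refine mul_ne_zero (by simpa using pow_pos hδ2 n) ?_
    have := symPart_zero_pos hK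
    intro h
    rw [hS] at h
    rw [h] at this
    simp at this
  obtain ⟨t, ht⟩ := exists_translate volume A (fun _ => 1) (fun _ _ => zero_le_one)
    ((δ / 2) • S) M (hSc.smul _).measurableSet hM.measurableSet hL0
    (hSc.smul _).measure_lt_top.ne hM.measure_lt_top.ne (by
      rintro a ha _ ⟨s, hs, rfl⟩
      exact hAM a ha s hs)
  rw [wt_one, Finset.sum_const, nsmul_eq_mul, mul_one, hLr] at ht
  have h1 : (A.filter (fun x => x - t ∈ (δ / 2) • S)).card ≤ 1 := by
    rw [Finset.card_le_one]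
    intro a ha b hb
    rw [Finset.mem_filter] at ha hb
    by_contra hne
    obtain ⟨s, hs, hs'⟩ := ha.2
    obtain ⟨r, hr, hr'⟩ := hb.2
    refine hA a ha.1 b hb.1 hne ((1 / 2 : ℝ) • s + (1 / 2 : ℝ) • (-r))
      (symPart_convex hK.conv 0 hs (symPart_neg hr) (by norm_num) (by norm_num) (by norm_num)) ?_
    simp only at hs' hr'
    have e1 : a = t + (δ / 2) • s := by rw [hs']; abel
    have e2 : b = t + (δ / 2) • r := by rw [hr']; abel
    rw [e2, e1, smul_add, smul_smul, smul_smul, smul_neg]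
    have e3 : δ * (1 / 2) = δ / 2 := by ring
    rw [e3]
    abel
  have h2 : ((A.filter (fun x => x - t ∈ (δ / 2) • S)).card : ℝ) ≤ 1 := by exact_mod_cast h1
  refine ht.trans ?_
  rw [measureReal_def]
  have h3 : 0 ≤ (volume M).toReal := ENNReal.toReal_nonneg
  calc _ ≤ 1 * (volume M).toReal := by
        refine mul_le_mul_of_nonneg_right (le_trans (le_of_eq ?_) h2) h3
        congr!
    _ = _ := one_mul _

theorem sep_subset {K : Set (EuclideanSpace ℝ (Fin n))} {δ : ℝ}
    {A B : Finset (EuclideanSpace ℝ (Fin n))} (hA : Sep K δ A) (hBA : B ⊆ A) : Sep K δ B :=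
  fun a ha b hb => hA a (hBA ha) b (hBA hb)

/-- **The counting lemma.** -/
theorem count_bad (hn : 2 ≤ n) {K : Set (EuclideanSpace ℝ (Fin n))} (hK : CB0 K)
    {α β : ℝ} (hα : 0 ≤ α) (hβ : β = α + 2) (hβn : 8 * β ≤ n)
    {X : Finset (EuclideanSpace ℝ (Fin n))} (hX : ∀ x ∈ X, x ∈ Bad K (1 + α / n))
    (hsep : Sep K (1 / (2 * n)) X) :
    (X.card : ℝ) ≤ (2 * n + 1) * (23040 * Real.exp 1 * β ^ 3) ^ n := by
  classical
  have hn0 : 0 < n := by omega
  have hnr : (0 : ℝ) < n := by exact_mod_cast hn0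
  have hβ2 : 2 ≤ β := by linarith
  have key : ∀ x : EuclideanSpace ℝ (Fin n), ∃ (Θ : Set (EuclideanSpace ℝ (Fin n))) (b : ℝ),
      x ∈ X → (Θ ⊆ pol K ∧ IsCompact Θ ∧
      (volume (pol K)).toReal ≤
        (2 * n + 1) * (576 * Real.exp 1 * β ^ 2) ^ n * (volume Θ).toReal ∧
      ∀ μ ∈ Θ, b ≤ ⟪x, μ⟫ ∧ ∀ z ∈ K, b - 1 / (8 * n) ≤ ⟪z, μ⟫ → z ∈ Bad K (1 + β / n)) := by
    intro x
    by_cases hx : x ∈ X
    · obtain ⟨Θ, b, h⟩ := point_data hn hK hα hβ hβn (hX x hx)
      exact ⟨Θ, b, fun _ => h⟩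
    · exact ⟨∅, 0, fun h => absurd h hx⟩
  choose Θ b hΘ using key
  have hpol0 : volume (pol K) ≠ 0 := by
    have h1 := isOpen_interior.measure_pos volume ⟨0, pol_zero_int hK.comp⟩
    exact (h1.trans_le (measure_mono interior_subset)).ne'
  obtain ⟨μ, hμ, hcard⟩ := exists_many X hpol0 (pol_isCompact hK).measure_lt_top.ne Θ
    (fun x hx => (hΘ x hx).1) (fun x hx => (hΘ x hx).2.1.measurableSet)
    ((2 * n + 1) * (576 * Real.exp 1 * β ^ 2) ^ n) (fun x hx => (hΘ x hx).2.2.1)
  set I := X.filter (fun x => μ ∈ Θ x) with hI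
  have hIX : ∀ x ∈ I, x ∈ X := fun x hx => (Finset.mem_filter.mp hx).1
  have hIμ : ∀ x ∈ I, μ ∈ Θ x := fun x hx => (Finset.mem_filter.mp hx).2
  have hIcard : (I.card : ℝ) ≤ (40 * β) ^ n := by
    by_cases hIe : I.Nonempty
    · obtain ⟨x₀, hx₀, hmin⟩ := I.exists_min_image b hIe
      obtain ⟨-, -, -, h4⟩ := hΘ x₀ (hIX x₀ hx₀)
      obtain ⟨h5, h6⟩ := h4 μ (hIμ x₀ hx₀)
      have hx₀K : x₀ ∈ K := (hX x₀ (hIX x₀ hx₀)).1
      obtain ⟨D, hD⟩ : ∃ D : Set (EuclideanSpace ℝ (Fin n)),
        D = {z | z ∈ K ∧ b x₀ - 1 / (8 * n) ≤ ⟪z, μ⟫} := ⟨_, rfl⟩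
      have hDB : D ⊆ Bad K (1 + β / n) := by
        intro z hz
        rw [hD] at hz
        exact h6 z hz.1 hz.2
      have hDconv : Convex ℝ D := by
        rw [hD]
        intro z hz w hw c d hc hd hcd
        refine ⟨hK.conv hz.1 hw.1 hc hd hcd, ?_⟩
        rw [inner_add_left, inner_smul_left, inner_smul_left]
        simp only [conj_trivial]
        have e : b x₀ - 1 / (8 * n) = c * (b x₀ - 1 / (8 * n)) + d * (b x₀ - 1 / (8 * n)) := by
          rw [← add_mul, hcd, one_mul]
        rw [e]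
        have h1 := mul_le_mul_of_nonneg_left hz.2 hc
        have h2 := mul_le_mul_of_nonneg_left hw.2 hd
        linarith
      have hDc : IsCompact D := by
        have h7 : IsClosed {z : EuclideanSpace ℝ (Fin n) | b x₀ - 1 / (8 * n) ≤ ⟪z, μ⟫} :=
          isClosed_le continuous_const (by fun_prop)
        rw [hD]
        exact hK.comp.inter_right h7
      obtain ⟨ε, hε⟩ : ∃ ε : ℝ, ε = 1 / (16 * n) := ⟨_, rfl⟩
      have hε0 : 0 < ε := by rw [hε]; positivity
      have hε1 : ε ≤ 1 := by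
        rw [hε, div_le_one (by positivity)]
        have : (2 : ℝ) ≤ n := by exact_mod_cast hn
        linarith
      have hDS : ∀ s ∈ symPart K 0, (1 - ε) • x₀ + ε • s ∈ D := by
        intro s hs
        rw [hD]
        have hsK : s ∈ K := by simpa using hs.1
        refine ⟨hK.conv hx₀K hsK (by linarith) hε0.le (by ring), ?_⟩
        rw [inner_add_left, inner_smul_left, inner_smul_left]
        simp only [conj_trivial]
        have h7 := hμ x₀ hx₀K
        have h8 : ⟪-s, μ⟫ ≤ 1 := hμ (-s) (by simpa using hs.2)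
        rw [inner_neg_left] at h8
        have h9 : 1 / (8 * (n : ℝ)) = 2 * ε := by rw [hε]; field_simp; norm_num
        rw [h9]
        nlinarith
      have hID : ∀ x ∈ I, x ∈ D := by
        intro x hx
        rw [hD]
        refine ⟨(hX x (hIX x hx)).1, ?_⟩
        obtain ⟨-, -, -, h4'⟩ := hΘ x (hIX x hx)
        have h7 := (h4' μ (hIμ x hx)).1
        have h8 := hmin x hx
        have h9 : 0 < 1 / (8 * (n : ℝ)) := by positivity
        linarith
      have hDi : (interior D).Nonempty := by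
        have h7 : (fun z => (1 - ε) • x₀ + z) '' (ε • symPart K 0) ⊆ D := by
          rintro _ ⟨_, ⟨s, hs, rfl⟩, rfl⟩
          exact hDS s hs
        have h8 : (fun z => (1 - ε) • x₀ + z) '' (interior (ε • symPart K 0)) ⊆ interior D := by
          have h9 : (fun z => (1 - ε) • x₀ + z) '' (interior (ε • symPart K 0)) =
              interior ((fun z => (1 - ε) • x₀ + z) '' (ε • symPart K 0)) :=
            (Homeomorph.addLeft ((1 - ε) • x₀)).image_interior _
          rw [h9]
          exact interior_mono h7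
        refine Set.Nonempty.mono h8 ?_
        rw [interior_smul₀ hε0.ne']
        exact ⟨_, _, ⟨0, symPart_zero_nhds hK, rfl⟩, rfl⟩
      have hvD := vol_bad hn0 hK hDconv hDc hDi hDB
      -- packing
      have hpack := pack hn0 hK (δ := 1 / (2 * n)) (by positivity)
        (A := I) (sep_subset hsep (fun x hx => hIX x hx))
        (M := (fun z => (-(4 * (1 - ε))) • x₀ + z) '' ((5 : ℝ) • D))
        ((hDc.smul _).image (by fun_prop)) (by
          intro x hx s hs
          have h7 := hDconv (hID x hx) (hDS s hs) (show (0 : ℝ) ≤ 1 / 5 by norm_num)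
            (show (0 : ℝ) ≤ 4 / 5 by norm_num) (by norm_num)
          refine ⟨_, ⟨_, h7, rfl⟩, ?_⟩
          simp only
          have h8 : (1 / (2 * (n : ℝ)) / 2) = 4 * ε := by rw [hε]; field_simp; norm_num
          rw [h8]
          match_scalars <;> ring)
      have h7 : (volume ((fun z => (-(4 * (1 - ε))) • x₀ + z) '' ((5 : ℝ) • D))).toReal =
          5 ^ n * (volume D).toReal := by
        rw [Set.image_add_left, measure_preimage_add, Measure.addHaar_smul,
          finrank_euclideanSpace_fin, abs_of_nonneg (by positivity), ENNReal.toReal_mul,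
          ENNReal.toReal_ofReal (by positivity)]
      rw [h7] at hpack
      have hr := rad_zero_pos hK
      have h8 : (I.card : ℝ) * (1 / (2 * (n : ℝ)) / 2 * rad K 0) ^ n ≤
          (40 * β) ^ n * (1 / (2 * (n : ℝ)) / 2 * rad K 0) ^ n := by
        refine hpack.trans ?_
        calc 5 ^ n * (volume D).toReal ≤ 5 ^ n * (2 * (1 + β / n - 1) * rad K 0) ^ n := by gcongr
          _ = (40 * β) ^ n * (1 / (2 * (n : ℝ)) / 2 * rad K 0) ^ n := by
              rw [← mul_pow, ← mul_pow]
              congr 1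
              field_simp
              ring
      exact le_of_mul_le_mul_right h8 (by positivity)
    · rw [Finset.not_nonempty_iff_eq_empty] at hIe
      rw [hIe]
      simp only [Finset.card_empty, Nat.cast_zero]
      positivity
  calc (X.card : ℝ) ≤ (2 * n + 1) * (576 * Real.exp 1 * β ^ 2) ^ n * (I.card : ℝ) := by
        refine hcard.trans (le_of_eq ?_)
        congr!
    _ ≤ (2 * n + 1) * (576 * Real.exp 1 * β ^ 2) ^ n * (40 * β) ^ n := by gcongr
    _ = (2 * n + 1) * (23040 * Real.exp 1 * β ^ 3) ^ n := by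
        rw [mul_assoc, ← mul_pow]
        congr 2
        ring

end Pool.Agent.J4H21
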