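import Mathlib
import Pool.Agent.J4H21.Count
import Pool.Agent.H815R2.HadCover

set_option autoImplicit false

/-!
Greedy coverings of the layers.
-/

namespace Pool.Agent.J4H21

open MeasureTheory Module Set
open scoped Pointwise ENNReal RealInnerProductSpace
open Pool.Agent.N605.RB Pool.Agent.H2R2.Cov

variable {n : ℕ}

/-- The translates of `l K` by points of `K` which contain `x`. -/
def Hit (K : Set (EuclideanSpace ℝ (Fin n))) (l : ℝ) (x : EuclideanSpace ℝ (Fin n)) :
    Set (EuclideanSpace ℝ (Fin n)) := {t | t ∈ K ∧ x - t ∈ l • K}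

theorem hit_isCompact {K : Set (EuclideanSpace ℝ (Fin n))} (hK : IsCompact K) (l : ℝ)
    (x : EuclideanSpace ℝ (Fin n)) : IsCompact (Hit K l x) :=
  hK.inter_right ((hK.smul l).isClosed.preimage (continuous_const.sub continuous_id))

theorem prob_ge (hn : 0 < n) {K : Set (EuclideanSpace ℝ (Fin n))} (hK : CB0 K) {l : ℝ}
    (h0 : 0 < l) (h1 : l ≤ 1) {x : EuclideanSpace ℝ (Fin n)} (hx : x ∈ K) :
    (l * rad K ((1 / 2 : ℝ) • x)) ^ n ≤ (volume (Hit K l x)).toReal := by
  have hsub : (fun z => (l • (1 / 2 : ℝ) • x + (1 - l) • x) + z) ''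
      (l • symPart K ((1 / 2 : ℝ) • x)) ⊆ Hit K l x := by
    rintro _ ⟨_, ⟨s, hs, rfl⟩, rfl⟩
    constructor
    · have h2 := hK.conv hs.1 hx h0.le (show 0 ≤ 1 - l by linarith) (by ring)
      have e : l • (1 / 2 : ℝ) • x + (1 - l) • x + l • s =
          l • ((1 / 2 : ℝ) • x + s) + (1 - l) • x := by
        rw [smul_add]; abel
      simp only
      rw [e]; exact h2
    · refine ⟨_, hs.2, ?_⟩
      simp only
      match_scalars <;> ring
  have h2 := measure_mono (μ := volume) hsub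
  rw [Set.image_add_left, measure_preimage_add, Measure.addHaar_smul,
    finrank_euclideanSpace_fin, abs_of_nonneg (by positivity)] at h2
  have h3 := ENNReal.toReal_mono (hit_isCompact hK.comp l x).measure_lt_top.ne h2
  rw [ENNReal.toReal_mul, ENNReal.toReal_ofReal (by positivity), ← rad_pow hn, ← mul_pow] at h3
  exact h3

/-- greedy covering -/
theorem greedy_of {K : Set (EuclideanSpace ℝ (Fin n))} (A : Finset (EuclideanSpace ℝ (Fin n)))
    (l C : ℝ) (hC : 1 ≤ C)
    (h : ∀ B ⊆ A, ∃ t, (B.card : ℝ) ≤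
      C * ((open Classical in B.filter (fun x => x - t ∈ l • K)).card : ℝ))
    (L : ℝ) (hL : 0 ≤ L) (hA : (A.card : ℝ) ≤ Real.exp L) :
    ∃ T : Finset (EuclideanSpace ℝ (Fin n)), (T.card : ℝ) ≤ C * L + 1 ∧
      ∀ x ∈ A, ∃ t ∈ T, x - t ∈ l • K := by
  classical
  have hC0 : 0 < C := by linarith
  obtain ⟨T, hT, hcov⟩ := Pool.Agent.H815R2.Had.greedy_cover (S := A)
    (E := EuclideanSpace ℝ (Fin n)) (fun t s => (s : EuclideanSpace ℝ (Fin n)) - t ∈ l • K)
    (1 / C) (by positivity) (by rw [div_le_one hC0]; exact hC)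
    (by
      intro B _
      obtain ⟨t, ht⟩ := h (B.map (Function.Embedding.subtype _)) (by
        intro x hx
        rw [Finset.mem_map] at hx
        obtain ⟨a, _, rfl⟩ := hx
        exact a.2)
      refine ⟨t, ?_⟩
      rw [Finset.filter_map, Finset.card_map, Finset.card_map] at ht
      rw [one_div, inv_mul_le_iff₀ hC0]
      refine ht.trans (le_of_eq ?_)
      norm_cast)
    (Real.exp L) (by rw [Fintype.card_coe]; exact hA) (Real.one_le_exp hL)
  refine ⟨T, ?_, fun x hx => hcov ⟨x, hx⟩⟩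
  refine hT.trans (le_of_eq ?_)
  rw [Real.log_exp]
  field_simp

/-- covering of a layer of good points -/
theorem cover_layer (hn : 0 < n) {K : Set (EuclideanSpace ℝ (Fin n))} (hK : CB0 K) {Δ l r : ℝ}
    (hΔ : 0 < Δ) (hvol : (volume K).toReal ≤ Δ * rad K 0 ^ n) (h0 : 0 < l) (h1 : l ≤ 1)
    (hr : 0 < r) (A : Finset (EuclideanSpace ℝ (Fin n))) (hA : ∀ x ∈ A, x ∈ K)
    (hAr : ∀ x ∈ A, r * rad K 0 ≤ 2 * rad K ((1 / 2 : ℝ) • x))
    (L : ℝ) (hL : 0 ≤ L) (hAL : (A.card : ℝ) ≤ Real.exp L) {C : ℝ}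
    (hC : C = Δ * (2 / (r * l)) ^ n) :
    ∃ T : Finset (EuclideanSpace ℝ (Fin n)), (T.card : ℝ) ≤ C * L + 1 ∧
      ∀ x ∈ A, ∃ t ∈ T, x - t ∈ l • K := by
  classical
  have hK0 : volume K ≠ 0 := by
    have h2 := isOpen_interior.measure_pos volume ⟨0, hK.zero⟩
    exact (h2.trans_le (measure_mono interior_subset)).ne'
  have hKf : volume K ≠ ⊤ := hK.comp.measure_lt_top.ne
  have hKr : 0 < (volume K).toReal := ENNReal.toReal_pos hK0 hKf
  have hC0 : 0 < C := by rw [hC]; positivity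
  have key : ∀ x ∈ A, (volume K).toReal ≤ C * (volume (Hit K l x)).toReal := by
    intro x hx
    have h2 := prob_ge hn hK h0 h1 (hA x hx)
    have h3 := hAr x hx
    have h4 := rad_zero_pos hK
    have h5 : (l * (r / 2 * rad K 0)) ^ n ≤ (volume (Hit K l x)).toReal := by
      refine le_trans ?_ h2
      refine pow_le_pow_left₀ (by positivity) ?_ n
      gcongr
      linarith
    calc (volume K).toReal ≤ Δ * rad K 0 ^ n := hvol
      _ = C * (l * (r / 2 * rad K 0)) ^ n := by
          rw [hC, mul_assoc, ← mul_pow]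
          congr 2
          field_simp
      _ ≤ C * (volume (Hit K l x)).toReal := by gcongr
  by_cases hAe : A = ∅
  · refine ⟨∅, ?_, by simp [hAe]⟩
    simp only [Finset.card_empty, Nat.cast_zero]
    positivity
  obtain ⟨x₀, hx₀⟩ := Finset.nonempty_iff_ne_empty.mpr hAe
  have hC1 : 1 ≤ C := by
    have h2 := key x₀ hx₀
    have h3 : (volume (Hit K l x₀)).toReal ≤ (volume K).toReal :=
      ENNReal.toReal_mono hKf (measure_mono (fun t ht => ht.1))
    have h4 : 1 * (volume K).toReal ≤ C * (volume K).toReal := by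
      rw [one_mul]
      exact h2.trans (by gcongr)
    exact le_of_mul_le_mul_right h4 hKr
  refine greedy_of A l C hC1 ?_ L hL hAL
  intro B hB
  obtain ⟨t, -, ht⟩ := exists_many B hK0 hKf (Hit K l) (fun x _ t ht => ht.1)
    (fun x _ => (hit_isCompact hK.comp l x).measurableSet) C (fun x hx => key x (hB hx))
  refine ⟨t, ?_⟩
  by_cases htK : t ∈ K
  · refine ht.trans (le_of_eq ?_)
    congr 3
    ext x
    simp [Hit, htK]
  · refine ht.trans ?_
    have : (B.filter (fun x => t ∈ Hit K l x)) = ∅ := by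
      rw [Finset.filter_eq_empty_iff]
      intro x _ h
      exact htK h.1
    rw [this]
    simp only [Finset.card_empty, Nat.cast_zero, mul_zero]
    positivity

/-- covering of arbitrary points -/
theorem cover_any {K : Set (EuclideanSpace ℝ (Fin n))} (hK : CB0 K) {l : ℝ}
    (h0 : 0 < l) (A : Finset (EuclideanSpace ℝ (Fin n))) (hA : ∀ x ∈ A, x ∈ K)
    (L : ℝ) (hL : 0 ≤ L) (hAL : (A.card : ℝ) ≤ Real.exp L) {C : ℝ}
    (hC : C = ((1 + l) / l) ^ n) :
    ∃ T : Finset (EuclideanSpace ℝ (Fin n)), (T.card : ℝ) ≤ C * L + 1 ∧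
      ∀ x ∈ A, ∃ t ∈ T, x - t ∈ l • K := by
  classical
  have hC1 : 1 ≤ C := by
    rw [hC]
    apply one_le_pow₀
    rw [le_div_iff₀ h0]; linarith
  refine greedy_of A l C hC1 ?_ L hL hAL
  intro B hB
  obtain ⟨t, ht⟩ := exists_heavy K hK.conv hK.comp ⟨0, hK.zero⟩ B (fun x hx => hA x (hB hx))
    (fun _ => 1) (fun _ _ => zero_le_one) l h0
  rw [wt_one, Finset.sum_const, nsmul_eq_mul, mul_one, finrank_euclideanSpace_fin] at ht
  refine ⟨t, ?_⟩
  have hC0 : 0 < C := by linarith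
  have e : (l / (1 + l)) ^ n = C⁻¹ := by
    rw [hC, ← inv_pow, inv_div]
  rw [e, inv_mul_le_iff₀ hC0] at ht
  exact ht

end Pool.Agent.J4H21
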