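import Mathlib
import Pool.Agent.J4H21.Greedy

set_option autoImplicit false

/-!
Nets, and the logarithm of the number of bad points.
-/

namespace Pool.Agent.J4H21

open MeasureTheory Module Set
open scoped Pointwise ENNReal RealInnerProductSpace
open Pool.Agent.N605.RB Pool.Agent.H2R2.Cov

variable {n : ℕ}

theorem trivial_count (hn : 0 < n) {K : Set (EuclideanSpace ℝ (Fin n))} (hK : CB0 K) {Δ δ : ℝ}
    (hvol : (volume K).toReal ≤ Δ * rad K 0 ^ n) (hδ : 0 < δ)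
    {A : Finset (EuclideanSpace ℝ (Fin n))} (hA : ∀ x ∈ A, x ∈ K) (hsep : Sep K δ A) :
    (A.card : ℝ) ≤ (2 / δ + 1) ^ n * Δ := by
  have h1 := pack hn hK hδ hsep (M := (1 + δ / 2) • K) (hK.comp.smul _) (by
    intro a ha s hs
    have hs' : s ∈ K := by simpa using hs.1
    have h2 := hK.conv (hA a ha) hs' (show 0 ≤ 1 / (1 + δ / 2) by positivity)
      (show 0 ≤ (δ / 2) / (1 + δ / 2) by positivity) (by field_simp)
    refine ⟨_, h2, ?_⟩
    simp only [smul_add, smul_smul]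
    rw [mul_one_div_cancel (by positivity : (1 + δ / 2) ≠ 0), one_smul,
      mul_div_cancel₀ _ (by positivity : (1 + δ / 2) ≠ 0)])
  rw [Measure.addHaar_smul, finrank_euclideanSpace_fin, abs_of_nonneg (by positivity),
    ENNReal.toReal_mul, ENNReal.toReal_ofReal (by positivity)] at h1
  have h2 : (A.card : ℝ) * (δ / 2 * rad K 0) ^ n ≤ (1 + δ / 2) ^ n * (Δ * rad K 0 ^ n) :=
    h1.trans (by gcongr)
  have hr := rad_zero_pos hK
  have h3 : (1 + δ / 2) ^ n * (Δ * rad K 0 ^ n) =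
      (2 / δ + 1) ^ n * Δ * (δ / 2 * rad K 0) ^ n := by
    have e : (1 + δ / 2) = (2 / δ + 1) * (δ / 2) := by field_simp
    rw [e, mul_pow, mul_pow]; ring
  rw [h3] at h2
  exact le_of_mul_le_mul_right h2 (by positivity)

theorem exists_sep_net (hn : 0 < n) {K : Set (EuclideanSpace ℝ (Fin n))} (hK : CB0 K) {Δ δ : ℝ}
    (hvol : (volume K).toReal ≤ Δ * rad K 0 ^ n) (hδ : 0 < δ) :
    ∃ A : Finset (EuclideanSpace ℝ (Fin n)), (∀ a ∈ A, a ∈ K) ∧ Sep K δ A ∧
      ∀ y ∈ K, ∃ a ∈ A, ∃ s, (0 : EuclideanSpace ℝ (Fin n)) + s ∈ K ∧ y = a + δ • s := by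
  classical
  let P : Finset (EuclideanSpace ℝ (Fin n)) → Prop := fun A => (∀ a ∈ A, a ∈ K) ∧ Sep K δ A
  have hcardb : ∀ A, P A → (A.card : ℝ) ≤ (2 / δ + 1) ^ n * Δ := fun A hA =>
    trivial_count hn hK hvol hδ hA.1 hA.2
  let N : Set ℕ := {m | ∃ S, P S ∧ S.card = m}
  have hNne : N.Nonempty := ⟨0, ∅, ⟨by simp, by intro a ha; simp at ha⟩, rfl⟩
  have hNb : BddAbove N := by
    refine ⟨⌊(2 / δ + 1) ^ n * Δ⌋₊, ?_⟩
    rintro m ⟨S, hS, rfl⟩
    exact Nat.le_floor (hcardb S hS)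
  obtain ⟨A, hA, hcard⟩ := Nat.sSup_mem hNne hNb
  refine ⟨A, hA.1, hA.2, ?_⟩
  intro x hx
  by_contra hcon
  push Not at hcon
  have hcon' : ∀ a ∈ A, ∀ s ∈ symPart K 0, x ≠ a + δ • s := fun a ha s hs => hcon a ha s hs.1
  have hS0 : (0 : EuclideanSpace ℝ (Fin n)) ∈ symPart K 0 := zero_mem_symPart hK.zero_mem
  have hxS : x ∉ A := by
    intro h
    have := hcon' x h 0 hS0
    simp at this
  have hP : P (insert x A) := by
    constructor
    · intro s hs
      rcases Finset.mem_insert.mp hs with rfl | hs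
      · exact hx
      · exact hA.1 s hs
    · intro a ha b hb hne s hs
      rcases Finset.mem_insert.mp ha with h1 | ha <;> rcases Finset.mem_insert.mp hb with h2 | hb
      · exact absurd (h1.trans h2.symm) hne
      · rw [h1]; exact hcon' b hb s hs
      · rw [h2]
        intro h
        refine hcon' a ha (-s) (symPart_neg hs) ?_
        rw [h, smul_neg]
        abel
      · exact hA.2 a ha b hb hne s hs
  have hle : (insert x A).card ≤ sSup N := le_csSup hNb ⟨_, hP, rfl⟩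
  rw [Finset.card_insert_of_notMem hxS] at hle
  omega

theorem bad_mono {K : Set (EuclideanSpace ℝ (Fin n))} {q q' : ℝ} (h : q ≤ q')
    {x : EuclideanSpace ℝ (Fin n)} (hx : x ∈ Bad K q) : x ∈ Bad K q' :=
  ⟨hx.1, hx.2.trans (mul_le_mul_of_nonneg_right h (rad_nonneg _ _))⟩

theorem exp_le_one_add_two {x : ℝ} (h0 : 0 ≤ x) (h1 : x ≤ 1) : Real.exp x ≤ 1 + 2 * x := by
  have h := Real.exp_bound' h0 h1 (n := 2) (by norm_num)
  simp [Finset.sum_range_succ, Nat.factorial] at h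
  nlinarith [sq_nonneg x]

theorem exp_one_gt : (2.7 : ℝ) < Real.exp 1 := by
  have := Real.exp_one_gt_d9
  linarith

/-- the logarithm of the number of separated bad points -/
theorem log_count (hn : 2 ≤ n) {K : Set (EuclideanSpace ℝ (Fin n))} (hK : CB0 K) {Δ : ℝ}
    (hΔ : Δ ≤ 2 ^ n) (hvol : (volume K).toReal ≤ Δ * rad K 0 ^ n) {a : ℝ} (ha : 0 ≤ a)
    {X : Finset (EuclideanSpace ℝ (Fin n))} (hX : ∀ x ∈ X, x ∈ Bad K (Real.exp (a / n)))
    (hsep : Sep K (1 / (2 * n)) X) :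
    (X.card : ℝ) ≤ Real.exp (n * (15 + 3 * Real.log (1 + a))) := by
  have hn0 : 0 < n := by omega
  have hnr : (0 : ℝ) < n := by exact_mod_cast hn0
  have hn2 : (2 : ℝ) ≤ n := by exact_mod_cast hn
  have hR : Real.exp (n * (15 + 3 * Real.log (1 + a))) = (Real.exp 15 * (1 + a) ^ 3) ^ n := by
    rw [Real.exp_nat_mul, Real.exp_add]
    congr 2
    have : (3 : ℝ) * Real.log (1 + a) = ((3 : ℕ) : ℝ) * Real.log (1 + a) := by norm_num
    rw [this, Real.exp_nat_mul, Real.exp_log (by linarith)]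
  have he15 : 3 * 184320 * Real.exp 1 ≤ Real.exp 15 := by
    have h1 : Real.exp 15 = Real.exp 1 ^ 14 * Real.exp 1 := by
      rw [← pow_succ, ← Real.exp_nat_mul]; norm_num
    rw [h1]
    have h2 : (3 * 184320 : ℝ) ≤ Real.exp 1 ^ 14 := by
      calc (3 * 184320 : ℝ) ≤ 2.7 ^ 14 := by norm_num
        _ ≤ Real.exp 1 ^ 14 := by
            have := exp_one_gt
            gcongr
    exact mul_le_mul_of_nonneg_right h2 (Real.exp_pos 1).le
  rw [hR]
  by_cases h : 16 * (a + 1) ≤ n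
  · have h1 : ∀ x ∈ X, x ∈ Bad K (1 + (2 * a) / n) := by
      intro x hx
      refine bad_mono ?_ (hX x hx)
      have h2 := exp_le_one_add_two (x := a / n) (by positivity) (by
        rw [div_le_one hnr]; linarith)
      calc Real.exp (a / n) ≤ 1 + 2 * (a / n) := h2
        _ = 1 + (2 * a) / n := by ring
    have h2 := count_bad hn hK (α := 2 * a) (β := 2 * a + 2) (by linarith) rfl (by linarith) h1 hsep
    have h3 : (2 * (n : ℝ) + 1) ≤ 3 ^ n := by
      have := one_add_mul_le_pow (show (-2 : ℝ) ≤ 2 by norm_num) n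
      norm_num at this
      linarith
    calc (X.card : ℝ) ≤ (2 * n + 1) * (23040 * Real.exp 1 * (2 * a + 2) ^ 3) ^ n := h2
      _ ≤ 3 ^ n * (23040 * Real.exp 1 * (2 * a + 2) ^ 3) ^ n := by gcongr
      _ = (3 * 184320 * Real.exp 1 * (1 + a) ^ 3) ^ n := by
          rw [← mul_pow]; congr 1; ring
      _ ≤ (Real.exp 15 * (1 + a) ^ 3) ^ n := by gcongr
  · push Not at h
    have h1 := trivial_count hn0 hK hvol (δ := 1 / (2 * n)) (by positivity)
      (fun x hx => (hX x hx).1) hsep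
    have h2 : (2 / (1 / (2 * (n : ℝ))) + 1) = 4 * n + 1 := by field_simp; ring
    rw [h2] at h1
    have h3 : (1 : ℝ) ≤ (1 + a) ^ 2 := one_le_pow₀ (by linarith)
    have he : (130 : ℝ) ≤ Real.exp 15 := by
      have := Real.exp_one_gt_d9
      linarith
    calc (X.card : ℝ) ≤ (4 * n + 1) ^ n * Δ := h1
      _ ≤ (4 * n + 1) ^ n * 2 ^ n := by gcongr
      _ = ((4 * n + 1) * 2) ^ n := by rw [mul_pow]
      _ ≤ (Real.exp 15 * (1 + a) ^ 3) ^ n := by
          refine pow_le_pow_left₀ (by positivity) ?_ n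
          have h4 : (4 * (n : ℝ) + 1) * 2 ≤ 130 * (1 + a) := by linarith
          have h5 : 130 * (1 + a) ≤ Real.exp 15 * (1 + a) := by gcongr
          have h6 : Real.exp 15 * (1 + a) ≤ Real.exp 15 * (1 + a) ^ 3 := by
            have : (1 + a) ^ 3 = (1 + a) * (1 + a) ^ 2 := by ring
            rw [this]
            have h7 : 0 ≤ Real.exp 15 * (1 + a) := by positivity
            nlinarith
          linarith

/-- `(1 - 1 / n) ^ n ≥ 1 / 4` -/
theorem one_sub_inv_pow (hn : 2 ≤ n) : 1 / 4 ≤ (1 - 1 / (n : ℝ)) ^ n := by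
  rcases eq_or_lt_of_le hn with h2 | h2
  · rw [← h2]; norm_num
  rcases eq_or_lt_of_le (show 3 ≤ n by omega) with h3 | h3
  · rw [← h3]; norm_num
  have h4 : (4 : ℝ) ≤ n := by exact_mod_cast h3
  obtain ⟨m, hm⟩ : ∃ m : ℕ, n = m + 1 := ⟨n - 1, by omega⟩
  have hm3 : (3 : ℝ) ≤ m := by
    have : (n : ℝ) = m + 1 := by rw [hm]; push_cast; ring
    linarith
  have hm0 : (0 : ℝ) < m := by linarith
  have e : (1 - 1 / (n : ℝ)) = (1 + 1 / (m : ℝ))⁻¹ := by
    rw [hm]; push_cast; field_simp; ring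
  rw [e, inv_pow, one_div]
  apply inv_anti₀ (by positivity)
  have h5 : (1 + 1 / (m : ℝ)) ^ m ≤ 2.72 := by
    have h6 : 1 + 1 / (m : ℝ) ≤ Real.exp (1 / m) := by
      have := Real.add_one_le_exp (1 / (m : ℝ)); linarith
    calc (1 + 1 / (m : ℝ)) ^ m ≤ Real.exp (1 / m) ^ m := by gcongr
      _ = Real.exp 1 := by
          rw [← Real.exp_nat_mul]; congr 1; field_simp
      _ ≤ 2.72 := by have := Real.exp_one_lt_d9; linarith
  have h7 : 1 + 1 / (m : ℝ) ≤ 4 / 3 := by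
    have : 1 / (m : ℝ) ≤ 1 / 3 := by gcongr
    linarith
  calc (1 + 1 / (m : ℝ)) ^ n = (1 + 1 / (m : ℝ)) ^ m * (1 + 1 / (m : ℝ)) := by
        rw [hm, pow_succ]
    _ ≤ 2.72 * (4 / 3) := by gcongr
    _ ≤ 4 := by norm_num

end Pool.Agent.J4H21
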