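import Mathlib
import Pool.Agent.J4H21.Net
import Pool.Agent.N605.RB.Cover

set_option autoImplicit false

/-!
The covering theorem for a body with the origin in its interior.
-/

namespace Pool.Agent.J4H21

open MeasureTheory Module Set
open scoped Pointwise ENNReal RealInnerProductSpace
open Pool.Agent.N605.RB Pool.Agent.H2R2.Cov

variable {n : ℕ}

theorem sum_geo (m : ℕ) : ∑ k ∈ Finset.range m, (1 / 2 : ℝ) ^ k ≤ 2 := by
  have h : ∑ k ∈ Finset.range m, (1 / 2 : ℝ) ^ k = 2 - 2 * (1 / 2) ^ m := by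
    induction m with
    | zero => norm_num
    | succ m ih => rw [Finset.sum_range_succ, ih]; ring
  rw [h]
  have : (0 : ℝ) < (1 / 2) ^ m := by positivity
  linarith

theorem sum_geo' (m : ℕ) : ∑ k ∈ Finset.range m, (k : ℝ) * (1 / 2 : ℝ) ^ k ≤ 2 := by
  have h : ∑ k ∈ Finset.range m, (k : ℝ) * (1 / 2 : ℝ) ^ k = 2 - (m + 1) * 2 * (1 / 2) ^ m := by
    induction m with
    | zero => norm_num
    | succ m ih => rw [Finset.sum_range_succ, ih]; push_cast; ring
  rw [h]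
  have : (0 : ℝ) ≤ ((m : ℝ) + 1) * 2 * (1 / 2) ^ m := by positivity
  linarith

theorem cover_zero (hn : 2 ≤ n) {K : Set (EuclideanSpace ℝ (Fin n))} (hK : CB0 K) {Δ : ℝ}
    (hΔ1 : 1 ≤ Δ) (hΔ : Δ ≤ 2 ^ n) (hvol : (volume K).toReal ≤ Δ * rad K 0 ^ n) :
    ∃ T : Finset (EuclideanSpace ℝ (Fin n)), K ⊆ ⋃ t ∈ T, (fun x => t + x) '' interior K ∧
      (T.card : ℝ) ≤ 300 * n * 2 ^ n * (1 + Real.log (1 + Real.log Δ)) := by
  classical
  have hn0 : 0 < n := by omega
  have hnr : (0 : ℝ) < n := by exact_mod_cast hn0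
  have hn2 : (2 : ℝ) ≤ n := by exact_mod_cast hn
  have hΔ0 : 0 < Δ := by linarith
  have hlogΔ : 0 ≤ Real.log Δ := Real.log_nonneg hΔ1
  obtain ⟨ℓ, hℓ⟩ : ∃ ℓ, ℓ = Real.log (1 + Real.log Δ) := ⟨_, rfl⟩
  have hℓ0 : 0 ≤ ℓ := by rw [hℓ]; exact Real.log_nonneg (by linarith)
  obtain ⟨l, hl⟩ : ∃ l : ℝ, l = 1 - 1 / (n : ℝ) := ⟨_, rfl⟩
  have hinv : 1 / (n : ℝ) ≤ 1 / 2 := by gcongr
  have hinv0 : 0 < 1 / (n : ℝ) := by positivity
  have hl0 : 0 < l := by rw [hl]; linarith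
  have hl1 : l ≤ 1 := by rw [hl]; linarith
  have hln : (1 / l) ^ n ≤ 4 := by
    have h1 := one_sub_inv_pow hn
    rw [← hl] at h1
    rw [one_div, inv_pow, inv_le_comm₀ (by positivity) (by norm_num)]
    linarith
  obtain ⟨A, hAK, hsep, hnet⟩ := exists_sep_net hn0 hK hvol (δ := 1 / (2 * n)) (by positivity)
  obtain ⟨a, ha⟩ : ∃ a : ℕ → ℝ, a = fun k : ℕ => Real.log Δ + (k : ℝ) * Real.log 2 := ⟨_, rfl⟩
  have hlog2 : 0 < Real.log 2 := Real.log_pos (by norm_num)
  have hlog2' : Real.log 2 ≤ 1 := by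
    have := Real.log_two_lt_d9; linarith
  have ha0 : ∀ k : ℕ, 0 ≤ a k := fun k => by rw [ha]; positivity
  have hrn : ∀ k : ℕ, Real.exp (a k / n) ^ n = 2 ^ k * Δ := by
    intro k
    rw [← Real.exp_nat_mul, ha]
    have : (n : ℝ) * ((Real.log Δ + k * Real.log 2) / n) = k * Real.log 2 + Real.log Δ := by
      field_simp; ring
    rw [this, Real.exp_add, Real.exp_nat_mul, Real.exp_log (by norm_num), Real.exp_log hΔ0]
  -- the layers
  obtain ⟨Y, hY⟩ : ∃ Y : ℕ → Finset (EuclideanSpace ℝ (Fin n)), Y = fun k =>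
      A.filter (fun x => x ∈ Bad K (Real.exp (a k / n)) ∧
        (k = 0 ∨ Real.exp (a (k - 1) / n) * rad K 0 ≤ 2 * rad K ((1 / 2 : ℝ) • x))) := ⟨_, rfl⟩
  have hYA : ∀ k, Y k ⊆ A := fun k => by rw [hY]; exact Finset.filter_subset _ _
  have hall : ∀ x ∈ A, x ∈ Bad K (Real.exp (a n / n)) := by
    intro x hx
    refine ⟨hAK x hx, ?_⟩
    have h1 : (2 * rad K ((1 / 2 : ℝ) • x)) ^ n ≤ (Real.exp (a n / n) * rad K 0) ^ n := by
      rw [mul_pow, mul_pow, hrn, rad_pow hn0]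
      have h2 : (volume (symPart K ((1 / 2 : ℝ) • x))).toReal ≤ (volume K).toReal := by
        refine ENNReal.toReal_mono hK.comp.measure_lt_top.ne ?_
        calc volume (symPart K ((1 / 2 : ℝ) • x)) ≤
            volume ((fun s => (1 / 2 : ℝ) • x + s) ⁻¹' K) := measure_mono (symPart_subset _ _)
          _ = volume K := measure_preimage_add _ _ _
      calc 2 ^ n * (volume (symPart K ((1 / 2 : ℝ) • x))).toReal ≤ 2 ^ n * (volume K).toReal := by
            gcongr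
        _ ≤ 2 ^ n * (Δ * rad K 0 ^ n) := by gcongr
        _ = 2 ^ n * Δ * rad K 0 ^ n := by ring
    exact le_of_pow_le_pow_left₀ hn0.ne' (mul_nonneg (Real.exp_pos _).le (rad_nonneg _ _)) h1
  have hmem : ∀ x ∈ A, ∃ k ∈ Finset.range (n + 1), x ∈ Y k := by
    intro x hx
    have hex : ∃ k, x ∈ Bad K (Real.exp (a k / n)) := ⟨n, hall x hx⟩
    have h1 := Nat.find_spec hex
    have h2 : Nat.find hex ≤ n := Nat.find_min' hex (hall x hx)
    refine ⟨Nat.find hex, Finset.mem_range.mpr (by omega), ?_⟩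
    rw [hY, Finset.mem_filter]
    refine ⟨hx, h1, ?_⟩
    by_cases h3 : Nat.find hex = 0
    · exact Or.inl h3
    · right
      have h4 := Nat.find_min hex (m := Nat.find hex - 1) (by omega)
      by_contra h5
      push Not at h5
      exact h4 ⟨hAK x hx, h5.le⟩
  have hcount : ∀ k : ℕ, ((Y k).card : ℝ) ≤ Real.exp (n * (15 + 3 * ℓ + 3 * k)) := by
    intro k
    have h1 := log_count hn hK hΔ hvol (ha0 k) (X := Y k) (by
      intro x hx
      rw [hY, Finset.mem_filter] at hx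
      exact hx.2.1) (sep_subset hsep (hYA k))
    refine h1.trans (Real.exp_le_exp.mpr ?_)
    refine mul_le_mul_of_nonneg_left ?_ hnr.le
    have h2 : Real.log (1 + a k) ≤ ℓ + k := by
      have h3 : 1 + a k ≤ (1 + Real.log Δ) * (1 + k) := by
        rw [ha]
        have : (k : ℝ) * Real.log 2 ≤ k := mul_le_of_le_one_right (by positivity) hlog2'
        have : 0 ≤ Real.log Δ * k := by positivity
        simp only
        nlinarith
      have h4 : (0 : ℝ) < 1 + a k := by have := ha0 k; linarith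
      calc Real.log (1 + a k) ≤ Real.log ((1 + Real.log Δ) * (1 + k)) :=
            Real.log_le_log h4 h3
        _ = ℓ + Real.log (1 + k) := by
            rw [Real.log_mul (by positivity) (by positivity), hℓ]
        _ ≤ ℓ + k := by
            have := Real.log_le_sub_one_of_pos (show (0 : ℝ) < 1 + k by positivity)
            linarith
    linarith
  have hlayer : ∀ k : ℕ, ∃ T : Finset (EuclideanSpace ℝ (Fin n)),
      (T.card : ℝ) ≤ 8 * 2 ^ n * (1 / 2) ^ k * (n * (15 + 3 * ℓ + 3 * k)) + 1 ∧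
      ∀ x ∈ Y k, ∃ t ∈ T, x - t ∈ l • K := by
    intro k
    have hL : 0 ≤ (n : ℝ) * (15 + 3 * ℓ + 3 * k) := by positivity
    rcases Nat.eq_zero_or_pos k with hk | hk
    · obtain ⟨T, hT, hcov⟩ := cover_any hK hl0 (Y k) (fun x hx => hAK x (hYA k hx)) _ hL
        (hcount k) rfl
      refine ⟨T, hT.trans ?_, hcov⟩
      have h1 : ((1 + l) / l) ^ n ≤ 8 * 2 ^ n * (1 / 2) ^ k := by
        rw [hk, pow_zero, mul_one]
        calc ((1 + l) / l) ^ n ≤ (2 * (1 / l)) ^ n := by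
              refine pow_le_pow_left₀ (by positivity) ?_ n
              rw [mul_one_div]
              gcongr
              linarith
          _ = 2 ^ n * (1 / l) ^ n := by rw [mul_pow]
          _ ≤ 2 ^ n * 4 := by gcongr
          _ ≤ 8 * 2 ^ n := by
              have : (0 : ℝ) < 2 ^ n := by positivity
              linarith
      gcongr
    · obtain ⟨T, hT, hcov⟩ := cover_layer hn0 hK hΔ0 hvol hl0 hl1
        (Real.exp_pos (a (k - 1) / n)) (Y k) (fun x hx => hAK x (hYA k hx)) (by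
          intro x hx
          rw [hY, Finset.mem_filter] at hx
          rcases hx.2.2 with h | h
          · omega
          · exact h) _ hL (hcount k) rfl
      refine ⟨T, hT.trans ?_, hcov⟩
      have h1 : Δ * (2 / (Real.exp (a (k - 1) / n) * l)) ^ n ≤ 8 * 2 ^ n * (1 / 2) ^ k := by
        have h2 : (2 / (Real.exp (a (k - 1) / n) * l)) ^ n =
            2 ^ n / (2 ^ (k - 1) * Δ) * (1 / l) ^ n := by
          rw [← hrn (k - 1), ← div_pow, ← mul_pow]
          congr 1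
          field_simp
        rw [h2]
        have h3 : (2 : ℝ) ^ k = 2 ^ (k - 1) * 2 := by
          rw [← pow_succ]; congr 1; omega
        calc Δ * (2 ^ n / (2 ^ (k - 1) * Δ) * (1 / l) ^ n)
            ≤ Δ * (2 ^ n / (2 ^ (k - 1) * Δ) * 4) := by gcongr
          _ = 8 * 2 ^ n * (1 / 2) ^ k := by
              rw [one_div, inv_pow, h3]
              field_simp
              norm_num
      gcongr
  choose T hT hcov using hlayer
  obtain ⟨T₀, hT₀⟩ : ∃ T₀ : Finset (EuclideanSpace ℝ (Fin n)),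
    T₀ = (Finset.range (n + 1)).biUnion T := ⟨_, rfl⟩
  have hcovA : ∀ x ∈ A, ∃ t ∈ T₀, x - t ∈ l • K := by
    intro x hx
    obtain ⟨k, hk, hxk⟩ := hmem x hx
    obtain ⟨t, ht, h⟩ := hcov k x hxk
    exact ⟨t, by rw [hT₀]; exact Finset.mem_biUnion.mpr ⟨k, hk, ht⟩, h⟩
  obtain ⟨T', hT', hcard⟩ := cover_of_net K hK.conv ⟨0, hK.zero⟩ l (1 / (2 * n)) hl0
    (by positivity) (by
      rw [hl]
      have : 1 / (2 * (n : ℝ)) = 1 / n / 2 := by field_simp
      rw [this]; linarith) 0 A T₀ hnet hcovA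
  refine ⟨T', hT', ?_⟩
  rw [← hℓ]
  have h1 : (T'.card : ℝ) ≤ T₀.card := by exact_mod_cast hcard
  have h2 : (T₀.card : ℝ) ≤ ∑ k ∈ Finset.range (n + 1),
      (8 * 2 ^ n * (1 / 2) ^ k * (n * (15 + 3 * ℓ + 3 * k)) + 1) := by
    rw [hT₀]
    calc (((Finset.range (n + 1)).biUnion T).card : ℝ) ≤
        ∑ k ∈ Finset.range (n + 1), ((T k).card : ℝ) := by
          exact_mod_cast Finset.card_biUnion_le
      _ ≤ _ := Finset.sum_le_sum fun k _ => hT k
  have h3 : ∑ k ∈ Finset.range (n + 1),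
      (8 * (2 : ℝ) ^ n * (1 / 2) ^ k * (n * (15 + 3 * ℓ + 3 * k)) + 1) =
      8 * 2 ^ n * n * ((15 + 3 * ℓ) * ∑ k ∈ Finset.range (n + 1), (1 / 2 : ℝ) ^ k +
        3 * ∑ k ∈ Finset.range (n + 1), (k : ℝ) * (1 / 2 : ℝ) ^ k) + (n + 1) := by
    rw [Finset.sum_add_distrib, Finset.sum_const, Finset.card_range, nsmul_eq_mul, mul_one,
      Finset.mul_sum, Finset.mul_sum, ← Finset.sum_add_distrib, Finset.mul_sum]
    push_cast
    congr 1
    refine Finset.sum_congr rfl fun k _ => ?_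
    ring
  have h4 := sum_geo (n + 1)
  have h5 := sum_geo' (n + 1)
  have h6 : (15 + 3 * ℓ) * ∑ k ∈ Finset.range (n + 1), (1 / 2 : ℝ) ^ k +
        3 * ∑ k ∈ Finset.range (n + 1), (k : ℝ) * (1 / 2 : ℝ) ^ k ≤ 36 + 6 * ℓ := by
    have h7 : (15 + 3 * ℓ) * ∑ k ∈ Finset.range (n + 1), (1 / 2 : ℝ) ^ k ≤ (15 + 3 * ℓ) * 2 := by
      gcongr
    linarith
  have h8 : (4 : ℝ) ≤ 2 ^ n := by
    calc (4 : ℝ) = 2 ^ 2 := by norm_num
      _ ≤ 2 ^ n := by gcongr; norm_num
  calc (T'.card : ℝ) ≤ 8 * 2 ^ n * n * (36 + 6 * ℓ) + (n + 1) := by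
        refine h1.trans (h2.trans ?_)
        rw [h3]
        gcongr
    _ ≤ 300 * n * 2 ^ n * (1 + ℓ) := by
        have h9 : (n : ℝ) + 1 ≤ 2 ^ n * n := by nlinarith
        have h10 : 0 ≤ 2 ^ n * (n : ℝ) * ℓ := by positivity
        nlinarith

end Pool.Agent.J4H21
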