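import Mathlib
import Pool.Agent.J4H21.Final

set_option autoImplicit false

/-!
Reduction to the case in which the center is the origin.
-/

namespace Pool.Agent.J4H21

open MeasureTheory Module Set
open scoped Pointwise ENNReal RealInnerProductSpace
open Pool.Agent.N605.RB Pool.Agent.H2R2.Cov Pool.Agent.H845R2

variable {n : ℕ}

theorem symPart_eq (K : Set (EuclideanSpace ℝ (Fin n))) (c : EuclideanSpace ℝ (Fin n)) :
    volume (symPart K c) = volume (K ∩ {z | (2 : ℝ) • c - z ∈ K}) := by
  have h2 : symPart K c = (fun s => c + s) ⁻¹' (K ∩ {z | (2 : ℝ) • c - z ∈ K}) := by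
    ext s
    simp only [symPart, Set.mem_ofPred_eq, Set.mem_preimage, Set.mem_inter_iff]
    have e : (2 : ℝ) • c - (c + s) = c - s := by rw [two_smul]; abel
    rw [e]
  rw [h2, measure_preimage_add]

/-- a center with a symmetric part of positive volume is an interior point -/
theorem center_interior {K : Set (EuclideanSpace ℝ (Fin n))} (hv : Convex ℝ K)
    (hc : IsCompact K) {p : EuclideanSpace ℝ (Fin n)} (hp : volume (symPart K p) ≠ 0) :
    p ∈ interior K := by
  have hSv := symPart_convex hv p
  have hSc := symPart_isCompact hc p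
  have hi : (interior (symPart K p)).Nonempty := by
    by_contra h
    rw [Set.not_nonempty_iff_eq_empty] at h
    have h1 : frontier (symPart K p) = symPart K p := by
      rw [frontier, h, hSc.isClosed.closure_eq, Set.sdiff_empty]
    have h2 := hSv.addHaar_frontier volume
    rw [h1] at h2
    exact hp h2
  have hSB : SB (symPart K p) := ⟨hSc, hSv, fun _ h => symPart_neg h, hi⟩
  have h0 := hSB.zero_int
  have h1 : (fun s => p + s) '' (interior (symPart K p)) ⊆ interior K := by
    have h2 : (fun s => p + s) '' (interior (symPart K p)) =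
        interior ((fun s => p + s) '' (symPart K p)) :=
      (Homeomorph.addLeft p).image_interior _
    rw [h2]
    apply interior_mono
    rintro _ ⟨s, hs, rfl⟩
    exact hs.1
  have h3 := h1 ⟨0, h0, rfl⟩
  simpa using h3

theorem cover_at (hn : 2 ≤ n) {K : Set (EuclideanSpace ℝ (Fin n))} (hv : Convex ℝ K)
    (hc : IsCompact K) (hi : (interior K).Nonempty) {p : EuclideanSpace ℝ (Fin n)} {Δ : ℝ}
    (hΔ1 : 1 ≤ Δ) (hΔ : Δ ≤ 2 ^ n)
    (hvol : (volume K).toReal ≤ Δ * (volume (symPart K p)).toReal) :
    ∃ T : Finset (EuclideanSpace ℝ (Fin n)), K ⊆ ⋃ t ∈ T, (fun x => t + x) '' interior K ∧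
      (T.card : ℝ) ≤ 300 * n * 2 ^ n * (1 + Real.log (1 + Real.log Δ)) := by
  have hn0 : 0 < n := by omega
  have hK0 : 0 < (volume K).toReal := by
    refine ENNReal.toReal_pos ?_ hc.measure_lt_top.ne
    exact ((isOpen_interior.measure_pos volume hi).trans_le (measure_mono interior_subset)).ne'
  have hp : p ∈ interior K := by
    apply center_interior hv hc
    intro h
    rw [h] at hvol
    simp at hvol
    linarith
  obtain ⟨K', hK'⟩ : ∃ K' : Set (EuclideanSpace ℝ (Fin n)), K' = (fun x => -p + x) '' K :=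
    ⟨_, rfl⟩
  have hint : interior K' = (fun x => -p + x) '' (interior K) := by
    rw [hK']
    exact ((Homeomorph.addLeft (-p)).image_interior K).symm
  have hCB : CB0 K' := by
    refine ⟨?_, ?_, ?_⟩
    · rw [hK']; exact hc.image (by fun_prop)
    · rw [hK']; exact hv.translate (-p)
    · rw [hint]; exact ⟨p, hp, by simp⟩
  have hsym : symPart K' 0 = symPart K p := by
    ext s
    rw [hK']
    simp only [symPart, Set.mem_ofPred_eq, Set.mem_image]
    constructor
    · rintro ⟨⟨a, ha, ha'⟩, ⟨b, hb, hb'⟩⟩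
      have e1 : a = p + s := by
        have : a = p + (-p + a) := by abel
        rw [this, ha']; abel
      have e2 : b = p - s := by
        have : b = p + (-p + b) := by abel
        rw [this, hb']; abel
      rw [← e1, ← e2]
      exact ⟨ha, hb⟩
    · rintro ⟨h1, h2⟩
      exact ⟨⟨_, h1, by abel⟩, ⟨_, h2, by abel⟩⟩
  have hvK : volume K' = volume K := by
    rw [hK', Set.image_add_left, measure_preimage_add]
  obtain ⟨T, hT, hcard⟩ := cover_zero hn hCB hΔ1 hΔ (by
    rw [rad_pow hn0, hsym, hvK]; exact hvol)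
  refine ⟨T, ?_, hcard⟩
  intro x hx
  have h1 : -p + x ∈ K' := by rw [hK']; exact ⟨x, hx, rfl⟩
  have h2 := hT h1
  rw [Set.mem_iUnion₂] at h2 ⊢
  obtain ⟨t, ht, z, hz, hz'⟩ := h2
  rw [hint] at hz
  obtain ⟨w, hw, rfl⟩ := hz
  refine ⟨t, ht, w, hw, ?_⟩
  simp only at hz' ⊢
  have : x = p + (-p + x) := by abel
  rw [this, ← hz']
  abel

/-- **The covering theorem.** -/
theorem cover_center (hn : 1 ≤ n) {K : Set (EuclideanSpace ℝ (Fin n))} (hv : Convex ℝ K)
    (hc : IsCompact K) (hi : (interior K).Nonempty) (c : EuclideanSpace ℝ (Fin n)) (Δ : ℝ)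
    (hΔ : volume K ≤ ENNReal.ofReal Δ * volume (K ∩ {z | (2 : ℝ) • c - z ∈ K})) :
    ∃ T : Finset (EuclideanSpace ℝ (Fin n)), K ⊆ ⋃ t ∈ T, (fun x => t + x) '' interior K ∧
      (T.card : ℝ) ≤ 300 * n * 2 ^ n * (1 + Real.log (1 + Real.log Δ)) := by
  have hK0 : 0 < (volume K).toReal := by
    refine ENNReal.toReal_pos ?_ hc.measure_lt_top.ne
    exact ((isOpen_interior.measure_pos volume hi).trans_le (measure_mono interior_subset)).ne'
  rw [← symPart_eq] at hΔ
  have hvol : (volume K).toReal ≤ max Δ 0 * (volume (symPart K c)).toReal := by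
    have h1 := ENNReal.toReal_mono (ENNReal.mul_ne_top ENNReal.ofReal_ne_top
      (symPart_lt_top hc c).ne) hΔ
    rw [ENNReal.toReal_mul, ENNReal.toReal_ofReal'] at h1
    exact h1
  have hsK : (volume (symPart K c)).toReal ≤ (volume K).toReal := by
    refine ENNReal.toReal_mono hc.measure_lt_top.ne ?_
    calc volume (symPart K c) ≤ volume ((fun s => c + s) ⁻¹' K) :=
          measure_mono (symPart_subset _ _)
      _ = volume K := measure_preimage_add _ _ _
  have hmax1 : 1 ≤ max Δ 0 := by
    have h1 : 1 * (volume K).toReal ≤ max Δ 0 * (volume K).toReal := by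
      rw [one_mul]
      exact hvol.trans (mul_le_mul_of_nonneg_left hsK (le_max_right _ _))
    exact le_of_mul_le_mul_right h1 hK0
  have hΔ1 : 1 ≤ Δ := by
    rcases le_max_iff.mp hmax1 with h | h
    · exact h
    · exact absurd h (by norm_num)
  have hmax : max Δ 0 = Δ := max_eq_left (by linarith)
  rw [hmax] at hvol
  have hlogΔ : 0 ≤ Real.log Δ := Real.log_nonneg hΔ1
  have hl0 : 0 ≤ Real.log (1 + Real.log Δ) := Real.log_nonneg (by linarith)
  rcases eq_or_lt_of_le hn with hn1 | hn2
  · subst hn1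
    obtain ⟨T, hT, hcard⟩ := cover_param K hv hc hi (by simp) (1 / 2) (1 / 8) (by norm_num)
      (by norm_num) (by simp; norm_num)
    refine ⟨T, hT, hcard.trans ?_⟩
    have h9 : Real.log (1 + 1 / (1 / 8)) ≤ 8 := by
      have := Real.log_le_sub_one_of_pos (show (0 : ℝ) < 1 + 1 / (1 / 8) by norm_num)
      refine this.trans ?_
      norm_num
    simp only [finrank_euclideanSpace_fin, Nat.cast_one, pow_one]
    have h10 : (1 + 1 / (1 / 2) : ℝ) = 3 := by norm_num
    rw [h10]
    nlinarith
  · by_cases h : Δ ≤ 2 ^ n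
    · exact cover_at hn2 hv hc hi hΔ1 h hvol
    · push Not at h
      obtain ⟨p, hp⟩ := exists_symPart volume K hv hc hi
      rw [finrank_euclideanSpace_fin] at hp
      have hp' : (volume K).toReal ≤ 2 ^ n * (volume (symPart K p)).toReal := by
        have := ENNReal.toReal_mono (ENNReal.mul_ne_top (by simp) (symPart_lt_top hc p).ne) hp
        simpa [ENNReal.toReal_mul] using this
      obtain ⟨T, hT, hcard⟩ := cover_at hn2 hv hc hi (one_le_pow₀ (by norm_num)) le_rfl hp'
      refine ⟨T, hT, hcard.trans ?_⟩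
      have h1 : Real.log (2 ^ n) ≤ Real.log Δ := Real.log_le_log (by positivity) h.le
      have h2 : 0 ≤ Real.log ((2 : ℝ) ^ n) := Real.log_nonneg (one_le_pow₀ (by norm_num))
      have h3 : Real.log (1 + Real.log (2 ^ n)) ≤ Real.log (1 + Real.log Δ) :=
        Real.log_le_log (by linarith) (by linarith)
      gcongr

end Pool.Agent.J4H21
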