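import Mathlib
import Pool.Agent.J4H21.FL.Setup

set_option autoImplicit false

/-!
# MP_eba1ef_gt: bodies close to subspaces of L_q and of its quotients

Let `K` be a centrally symmetric convex body in `ℝ^d`. We prove the conjecture, with strict
inequality and for all large `d`, if the norm of `K` is `b`-isomorphic to that of a subspace of
`L_q(ν)`, `1 ≤ q < ∞`, or of a subspace of a quotient of `L_q(ν)`, `1 < q < ∞`. There are no
conditions of symmetry; `ν` is any measure. More precisely if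
`(10^12 q R² b² log(d+1)^4)^(max(q, 2)) ≤ d` then `K` is covered by less than `2^d` translates
of its interior; here `R = 1` for subspaces of `L_q` and `R = q / (q-1)` for subspaces of
quotients. For `q = 2` this is the case if the Banach-Mazur distance of `K` to the Euclidean ball
is at most `c d^(1/4) / log(d)²`. (If `1 < q < ∞` and `b = 1` then `K` is smooth, and
it is classical that `d + 1` translates are enough. For `q = 1` already `b = 1` is of interest:
these are the polars of the zonoids.)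

This holds for the subspaces of function spaces with a lattice norm `ρ` which is `e`-concave,
`e < ∞` (Lorentz and Orlicz spaces, `L_q(L_p)`, every Banach lattice of a finite cotype) and for
the subspaces of quotients of such spaces if `ρ` is moreover `r`-convex for some `r > 1`.
For the first kind it suffices that the unit ball of the subspace is contained in `K` and that
the average over `K` of its norm is at most `b`. (So for `q = 2` it is enough that `K` contains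
an ellipsoid the norm of which has an average at most `c d^(1/4) / log(d)²` on `K`. For every `K`
there is an ellipsoid for which it is at most `d^(1/2)`.)

The proof. We use the following criterion, for the norm `g` of `K`: let `P` be a linear projection
of the rank `k`, `g(P z) ≤ G` for at least `3/4` of the points `z` of `K`, and let `ω` be the
average of `|Dg(z)[P z']|` over `z, z' ∈ K`. If `5000 · 2^j j² λ² d ω ≤ k` for a `j` with
`2^j ≥ 18 d G / k` and `3 j λ ≤ k` then `K` is covered by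
at most `1 + 12 d log(4d+1) 2^d e^(-λ)` translates of its interior. (If not, a random walk
`z_i = α (u + z_(i-1))`, `u` from a set of points of `K` not covered by few slabs, stays in
`K` in a controlled manner, while the map `(1-s) Id + τ P` has a large determinant. So it takes
typical points out of `K`; the norming functionals `φ` at these points have a large value at
`P z`, which forces `φ(P u)` to be large for one of the steps of the walk.)

Let `K` be in isotropic position (covariance `Id`). Let `P` be the orthogonal projection onto a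
`k`-dimensional subspace. The function space gives `G ≤ C e b`: the norm of `P z` is at
most `ρ(|⟨a, P z⟩|)`, the moments of the linear functional `⟨a(ω), P z⟩` are at most those of a
variable with exponential tails and variance `|P a(ω)|² ≤ |a(ω)|²`, and `ρ(|a|)` is at most
`C b` by the triangle inequality and the reverse Hölder inequality for linear functionals. If
`K` is not covered, then by the criterion the `k`-dimensional subspace contains a vector `x`
with `|x| = 1` and `g(x) ≥ c (k/d)² / (G λ² log(d+1)²)`. So there are orthonormal vectors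
`x_1, ..., x_(d/2)` with `g(x_i) ≥ τ = c / (G λ² log(d+1)²)`, but the concavity gives
`(d/2) τ^q ≤ (C b)^q`, `q = max(e, 2)`.

For quotients, the average over `z ∈ K` of `z ⊗ J(z)`, where `J(z)` is a lifting of `z`,
defines a linear lifting `a`, and `|a(ω)|` is at most `C r'` times the `L_r` norm of
`J(z)(ω)` by the duality with the moments of order `r'` of the linear functionals.
-/

namespace Pool.Agent.J4H21.SubspacesOfLq

open MeasureTheory
open scoped ENNReal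

/-- The space `ℝ^d`. -/
abbrev Sp (d : ℕ) : Type := EuclideanSpace ℝ (Fin d)

/-- `K` is a centrally symmetric convex body. -/
def IsSymmBody {d : ℕ} (K : Set (Sp d)) : Prop :=
  Convex ℝ K ∧ IsCompact K ∧ (interior K).Nonempty ∧ ∀ x ∈ K, -x ∈ K

/-- `K` is covered by less than `2^d` translates of its interior. -/
def CoveredByFewer {d : ℕ} (K : Set (Sp d)) : Prop :=
  ∃ T : Finset (Sp d), K ⊆ ⋃ t ∈ T, (fun x => t + x) '' interior K ∧ T.card < 2 ^ d

/-- `K` is covered by less than `2^d` translates of its interior if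
`(10^12 Γ log(d+1)^4)^m ≤ d`, and by at most `1 + 12 d log(4d+1) 2^d e^(-λ)` translates if
`(10^11 Γ λ² log(d+1)²)^m ≤ d`, `λ ≥ 1`. -/
def FewTranslates {d : ℕ} (K : Set (Sp d)) (Γ m : ℝ) : Prop :=
  ((10 ^ 12 * Γ * Real.log (d + 1) ^ 4) ^ m ≤ d → CoveredByFewer K) ∧
  ∀ lam : ℝ, 1 ≤ lam → (10 ^ 11 * Γ * lam ^ 2 * Real.log (d + 1) ^ 2) ^ m ≤ d →
    ∃ T : Finset (Sp d), K ⊆ ⋃ t ∈ T, (fun x => t + x) '' interior K ∧
      (T.card : ℝ) ≤ 1 + 12 * d * Real.log (4 * d + 1) * 2 ^ d * Real.exp (-lam)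

/-- `ρ` is a lattice seminorm, with values in `[0, ∞]`, on the measurable functions on `Ω`. -/
def IsLatticeNorm {Ω : Type*} [MeasurableSpace Ω] (ρ : (Ω → ℝ) → ℝ≥0∞) : Prop :=
  (∀ f g : Ω → ℝ, Measurable f → Measurable g → (∀ ω, |f ω| ≤ |g ω|) → ρ f ≤ ρ g) ∧
  (∀ (c : ℝ) (f : Ω → ℝ), Measurable f → ρ (fun ω => c * f ω) = ENNReal.ofReal |c| * ρ f) ∧
  (∀ f g : Ω → ℝ, Measurable f → Measurable g → ρ (fun ω => f ω + g ω) ≤ ρ f + ρ g)

/-- `ρ` is `e`-concave with the constant `M`, where `e ≥ 1`, `M ≥ 1`: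
`(∑ ρ(f_i)^e)^(1/e) ≤ M ρ((∑ |f_i|^e)^(1/e))`. -/
def IsConcave {Ω : Type*} [MeasurableSpace Ω] (ρ : (Ω → ℝ) → ℝ≥0∞) (e M : ℝ) : Prop :=
  1 ≤ e ∧ 1 ≤ M ∧ ∀ (n : ℕ) (f : Fin n → Ω → ℝ), (∀ i, Measurable (f i)) →
    (∑ i, ρ (f i) ^ e) ^ (1 / e) ≤ ENNReal.ofReal M * ρ (fun ω => (∑ i, |f i ω| ^ e) ^ (1 / e))

/-- `ρ` is `r`-convex with the constant `M`, where `r > 1`, `M ≥ 1`:
`ρ((∑ |f_i|^r)^(1/r)) ≤ M (∑ ρ(f_i)^r)^(1/r)`. -/
def IsConvex {Ω : Type*} [MeasurableSpace Ω] (ρ : (Ω → ℝ) → ℝ≥0∞) (r M : ℝ) : Prop :=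
  1 < r ∧ 1 ≤ M ∧ ∀ (n : ℕ) (f : Fin n → Ω → ℝ), (∀ i, Measurable (f i)) →
    ρ (fun ω => (∑ i, |f i ω| ^ r) ^ (1 / r)) ≤ ENNReal.ofReal M * (∑ i, ρ (f i) ^ r) ^ (1 / r)

/-- For some measurable functions `a_1, ..., a_d` on `Ω` and the norm
`N(x) = ρ(x_1 a_1 + ... + x_d a_d)` on `ℝ^d` (that of a subspace of the function space) the unit
ball of `N` is contained in `K` and the average of `N` over `K` is at most `b`. -/
def NearSubspace {d : ℕ} (K : Set (Sp d)) {Ω : Type*} [MeasurableSpace Ω]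
    (ρ : (Ω → ℝ) → ℝ≥0∞) (b : ℝ) : Prop :=
  ∃ a : Ω → Sp d, Measurable a ∧ (∀ x, ρ (fun ω => inner ℝ (a ω) x) ≤ 1 → x ∈ K) ∧
    ∫⁻ x in K, ρ (fun ω => inner ℝ (a ω) x) ≤ ENNReal.ofReal b * volume K

/-- `T(B) ⊆ K ⊆ b T(B)` for the unit ball `B` of the linear space `Z` of measurable functions with
the seminorm `ρ` and the linear map `T`: the norm of `K` is `b`-isomorphic to that of a subspace
of a quotient of the space of functions (of a subspace if `T` is injective on `Z`). -/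
def IsNear {d : ℕ} (K : Set (Sp d)) {Ω : Type*} [MeasurableSpace Ω] (ρ : (Ω → ℝ) → ℝ≥0∞) (b : ℝ)
    (Z : Submodule ℝ (Ω → ℝ)) (T : (Ω → ℝ) →ₗ[ℝ] Sp d) : Prop :=
  (∀ f ∈ Z, Measurable f) ∧ (∀ f ∈ Z, ρ f ≤ 1 → T f ∈ K) ∧
  ∀ x ∈ K, ∃ f ∈ Z, T f = x ∧ ρ f ≤ ENNReal.ofReal b

theorem concave_fl {Ω : Type*} [MeasurableSpace Ω] {ρ : (Ω → ℝ) → ℝ≥0∞} {e M : ℝ}
    (h : IsLatticeNorm ρ) (h' : IsConcave ρ e M) :
    Pool.Agent.J4H21.FL.ConcaveNorm ρ e M := by
  have he0 : 0 < e := by linarith [h'.1]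
  refine ⟨h.1, h.2.1, h.2.2, fun n f hf => ?_⟩
  have h1 := ENNReal.rpow_le_rpow (h'.2.2 n f hf) he0.le
  rwa [← ENNReal.rpow_mul, one_div_mul_cancel he0.ne', ENNReal.rpow_one,
    ENNReal.mul_rpow_of_nonneg _ _ he0.le] at h1

theorem lq_eq {Ω : Type*} [MeasurableSpace Ω] (ν : Measure Ω) (q : ℝ) (hq : 1 ≤ q) (f : Ω → ℝ) :
    Pool.Agent.J4H21.FL.lq ν q f = eLpNorm f (ENNReal.ofReal q) ν := by
  have hq0 : 0 < q := by linarith
  rw [eLpNorm_eq_lintegral_rpow_enorm_toReal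
      (ENNReal.ofReal_pos.2 hq0).ne' ENNReal.ofReal_ne_top, ENNReal.toReal_ofReal hq0.le]
  unfold Pool.Agent.J4H21.FL.lq
  simp only [Real.enorm_eq_ofReal_abs]

theorem hom_le {d : ℕ} {Z : Type*} [AddCommGroup Z] [Module ℝ Z] (N : Z → ℝ≥0∞)
    (hN : ∀ (c : ℝ) (ζ : Z), N (c • ζ) = ENNReal.ofReal |c| * N ζ) (T : Z →ₗ[ℝ] Sp d)
    (p : Seminorm ℝ (Sp d)) (h : ∀ ζ, N ζ ≤ 1 → p (T ζ) ≤ 1) (ζ : Z) :
    ENNReal.ofReal (p (T ζ)) ≤ N ζ := by
  by_cases ht : N ζ = ⊤
  · rw [ht]; exact le_top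
  set t : ℝ := (N ζ).toReal with htd
  have ht0 : 0 ≤ t := ENNReal.toReal_nonneg
  have hte : N ζ = ENNReal.ofReal t := (ENNReal.ofReal_toReal ht).symm
  rw [hte]
  apply ENNReal.ofReal_le_ofReal
  refine le_of_forall_pos_le_add fun ε hε => ?_
  have hs : 0 < t + ε := by positivity
  have h1 : N ((t + ε)⁻¹ • ζ) ≤ 1 := by
    rw [hN, hte, ← ENNReal.ofReal_mul (abs_nonneg _), abs_of_pos (inv_pos.2 hs),
      ← ENNReal.ofReal_one]
    apply ENNReal.ofReal_le_ofReal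
    rw [inv_mul_le_iff₀ hs]
    linarith
  have h2 := h _ h1
  rw [map_smul, map_smul_eq_mul, Real.norm_of_nonneg (inv_pos.2 hs).le, inv_mul_le_iff₀ hs,
    mul_one] at h2
  exact h2

theorem few {d : ℕ} (hd : 2 ≤ d) {K : Set (Sp d)} (p : Seminorm ℝ (Sp d))
    (hball : {y : Sp d | p y ≤ 1} = K) (hint : ∀ x, p x < 1 ↔ x ∈ interior K) (Γ m : ℝ)
    (hΓ : 1 ≤ Γ) (hm : 1 ≤ m)
    (h : ∀ lam : ℝ, 1 ≤ lam → (10 ^ 11 * Γ * lam ^ 2 * Real.log (d + 1) ^ 2) ^ m ≤ d →
      Pool.Agent.J4H21.FL.Good p lam) : FewTranslates K Γ m := by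
  have hd' : (2 : ℝ) ≤ d := by exact_mod_cast hd
  have hL1 : 1 ≤ Real.log ((d : ℝ) + 1) := by
    rw [Real.le_log_iff_exp_le (by positivity)]
    have := Real.exp_one_lt_d9
    linarith
  refine ⟨fun hc => ?_, fun lam hlam hc =>
    Pool.Agent.J4H21.FL.good_cover p hball hint lam (h lam hlam hc)⟩
  set L := Real.log ((d : ℝ) + 1) with hL
  have hL4 : 1 ≤ L ^ 4 := one_le_pow₀ hL1
  have hX : 10 ^ 12 ≤ 10 ^ 12 * Γ * L ^ 4 := by
    calc (10 : ℝ) ^ 12 = 10 ^ 12 * 1 * 1 := by norm_num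
      _ ≤ 10 ^ 12 * Γ * L ^ 4 := by gcongr
  have hXd : 10 ^ 12 * Γ * L ^ 4 ≤ d := by
    calc 10 ^ 12 * Γ * L ^ 4 = (10 ^ 12 * Γ * L ^ 4) ^ (1 : ℝ) := (Real.rpow_one _).symm
      _ ≤ (10 ^ 12 * Γ * L ^ 4) ^ m := Real.rpow_le_rpow_of_exponent_le (by linarith) hm
      _ ≤ d := hc
  have hd67 : 67 ≤ d := by
    have h1 : ((67 : ℕ) : ℝ) ≤ d := by
      push_cast
      linarith
    exact_mod_cast h1
  have h1 : (10 ^ 11 * Γ * (3 * L) ^ 2 * L ^ 2) ^ m ≤ d := by
    refine le_trans ?_ hc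
    apply Real.rpow_le_rpow (by positivity) _ (by linarith)
    have h2 : 0 ≤ Γ * L ^ 4 := by positivity
    calc 10 ^ 11 * Γ * (3 * L) ^ 2 * L ^ 2 = 10 ^ 11 * 9 * (Γ * L ^ 4) := by ring
      _ ≤ 10 ^ 12 * (Γ * L ^ 4) := mul_le_mul_of_nonneg_right (by norm_num) h2
      _ = _ := by ring
  obtain ⟨T, hT1, hT2⟩ := Pool.Agent.J4H21.FL.good_cover p hball hint (3 * L)
    (h (3 * L) (by linarith) h1)
  exact ⟨T, hT1, Pool.Agent.J4H21.FL.strict_of_bound hd _ _ hT2
    (Pool.Agent.J4H21.FL.saving hd67)⟩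

/-- the norms are finite -/
theorem fin_of_int {d : ℕ} {Ω : Type*} [MeasurableSpace Ω] (ρ : (Ω → ℝ) → ℝ≥0∞)
    (h : IsLatticeNorm ρ) (a : Ω → Sp d) (ha : Measurable a) (K : Set (Sp d))
    (hKm : MeasurableSet K) (h0 : volume K ≠ 0)
    (hfin : ∫⁻ x in K, ρ (fun ω => inner ℝ (a ω) x) ≠ ⊤) (x : Sp d) :
    ρ (fun ω => inner ℝ (a ω) x) ≠ ⊤ := by
  have hin : ∀ y : Sp d, Measurable fun ω => inner ℝ (a ω) y := fun y =>
    ha.inner measurable_const
  let S : Submodule ℝ (Sp d) :=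
    { carrier := {x | ρ (fun ω => inner ℝ (a ω) x) ≠ ⊤}
      add_mem' := by
        intro x y hx hy
        show ρ (fun ω => inner ℝ (a ω) (x + y)) ≠ ⊤
        simp only [inner_add_right]
        exact ne_top_of_le_ne_top (ENNReal.add_ne_top.2 ⟨hx, hy⟩) (h.2.2 _ _ (hin x) (hin y))
      zero_mem' := by
        show ρ (fun ω => inner ℝ (a ω) 0) ≠ ⊤
        have h1 := h.2.1 0 (fun ω => inner ℝ (a ω) 0) (hin 0)
        simp only [inner_zero_right, mul_zero, abs_zero, ENNReal.ofReal_zero, zero_mul] at h1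
        simp only [inner_zero_right]
        rw [h1]
        exact ENNReal.zero_ne_top
      smul_mem' := by
        intro c x hx
        show ρ (fun ω => inner ℝ (a ω) (c • x)) ≠ ⊤
        simp only [inner_smul_right]
        rw [h.2.1 c _ (hin x)]
        exact ENNReal.mul_ne_top ENNReal.ofReal_ne_top hx }
  by_contra hcon
  have hS : S ≠ ⊤ := by
    intro h1
    have h2 : x ∈ S := by rw [h1]; exact Submodule.mem_top
    exact h2 hcon
  have hS0 : volume (S : Set (Sp d)) = 0 := Measure.addHaar_submodule volume S hS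
  apply hfin
  rw [eq_top_iff]
  have hSm : MeasurableSet (S : Set (Sp d)) := S.closed_of_finiteDimensional.measurableSet
  calc (⊤ : ℝ≥0∞) = ⊤ * volume (K \ S) := by
        rw [ENNReal.top_mul]
        rw [measure_sdiff_null hS0]
        exact h0
    _ = ∫⁻ _ in K \ S, (⊤ : ℝ≥0∞) := by rw [setLIntegral_const]
    _ ≤ ∫⁻ x in K \ S, ρ (fun ω => inner ℝ (a ω) x) := by
        refine setLIntegral_mono' (hKm.diff hSm) fun y hy => ?_
        have h1 : ρ (fun ω => inner ℝ (a ω) y) = ⊤ := by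
          by_contra h2
          exact hy.2 h2
        rw [h1]
    _ ≤ _ := lintegral_mono_set Set.sdiff_subset

/-- the average version -/
theorem average_version {d : ℕ} (hd : 2 ≤ d) (K : Set (Sp d)) (hK : IsSymmBody K)
    {Ω : Type*} [MeasurableSpace Ω] (ρ : (Ω → ℝ) → ℝ≥0∞) (e M b : ℝ) (a : Ω → Sp d)
    (hρ : IsLatticeNorm ρ) (he : 1 ≤ e) (hM : 1 ≤ M)
    (hconc : Pool.Agent.J4H21.FL.ConcaveNorm ρ e M) (hb : 1 ≤ b) (ha : Measurable a)
    (h1 : ∀ x, ρ (fun ω => inner ℝ (a ω) x) ≤ 1 → x ∈ K)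
    (h2 : ∫⁻ x in K, ρ (fun ω => inner ℝ (a ω) x) ≤ ENNReal.ofReal b * volume K) :
    FewTranslates K (e * (M * b) ^ 2) (max e 2) := by
  obtain ⟨hK1, hK2, hK3, hK4⟩ := hK
  obtain ⟨p, hcont, hball, -, hV0, hint⟩ :=
    Pool.Agent.J4H21.FL.exists_seminorm hK1 hK2 hK3 hK4
  have hmem : ∀ y, p y ≤ 1 ↔ y ∈ K := by
    intro y
    rw [← hball]
    exact Iff.rfl
  have h0 : volume {y : Sp d | p y ≤ 1} ≠ 0 := by rw [hball]; exact hV0
  have hcomp : IsCompact {y : Sp d | p y ≤ 1} := by rw [hball]; exact hK2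
  have hfin := fin_of_int ρ hρ a ha K hK2.measurableSet hV0
    (ne_top_of_le_ne_top (ENNReal.mul_ne_top ENNReal.ofReal_ne_top hK2.measure_lt_top.ne) h2)
  have hin : ∀ y : Sp d, Measurable fun ω => inner ℝ (a ω) y := fun y =>
    ha.inner measurable_const
  have hMb : 1 ≤ M * b := by nlinarith
  have hMb2 : 1 ≤ (M * b) ^ 2 := one_le_pow₀ hMb
  refine few hd p hball hint _ _ (by nlinarith) (le_trans (by norm_num) (le_max_right e 2))
    fun lam hlam hc => ?_
  refine Pool.Agent.J4H21.FL.lat_gen hconc he hM a ha (fun i => ?_) hd p hcont h0 hcomp b hb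
    (fun x => ?_) (by rw [hball]; exact h2) lam hlam ?_
  · have h3 := hfin (EuclideanSpace.single i (1 : ℝ))
    convert h3 using 2
    funext ω
    rw [EuclideanSpace.inner_single_right]
    simp
  · exact hom_le (fun x => ρ (fun ω => inner ℝ (a ω) x)) (fun c x => by
      simp only [inner_smul_right]
      exact hρ.2.1 c _ (hin x)) LinearMap.id p (fun x hx => (hmem x).2 (h1 x hx)) x
  · refine le_trans (le_of_eq ?_) hc
    congr 1
    ring

/-- the version for quotients -/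
theorem quotient_version {d : ℕ} (hd : 2 ≤ d) (K : Set (Sp d)) (hK : IsSymmBody K)
    {Ω : Type*} [MeasurableSpace Ω] (ρ : (Ω → ℝ) → ℝ≥0∞) (e M r M' b : ℝ)
    {Z : Type*} [AddCommGroup Z] [Module ℝ Z] (J : Z →ₗ[ℝ] (Ω → ℝ)) (T : Z →ₗ[ℝ] Sp d)
    (hρ : IsLatticeNorm ρ) (he : 1 ≤ e) (hM : 1 ≤ M)
    (hconc : Pool.Agent.J4H21.FL.ConcaveNorm ρ e M) (hr : 1 < r) (hM' : 1 ≤ M')
    (hconv : Pool.Agent.J4H21.FL.ConvexNorm ρ r M') (hb : 1 ≤ b)
    (hJ : ∀ ζ, Measurable (J ζ)) (h1 : ∀ ζ, ρ (J ζ) ≤ 1 → T ζ ∈ K)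
    (h2 : ∀ x ∈ K, ∃ ζ, T ζ = x ∧ ρ (J ζ) ≤ ENNReal.ofReal b) :
    FewTranslates K (e * (M * M' * (r / (r - 1)) * b) ^ 2) (max e 2) := by
  obtain ⟨hK1, hK2, hK3, hK4⟩ := hK
  obtain ⟨p, hcont, hball, -, hV0, hint⟩ :=
    Pool.Agent.J4H21.FL.exists_seminorm hK1 hK2 hK3 hK4
  have hmem : ∀ y, p y ≤ 1 ↔ y ∈ K := by
    intro y
    rw [← hball]
    exact Iff.rfl
  have h0 : volume {y : Sp d | p y ≤ 1} ≠ 0 := by rw [hball]; exact hV0
  have hcomp : IsCompact {y : Sp d | p y ≤ 1} := by rw [hball]; exact hK2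
  have hr1 : 1 < r / (r - 1) := by
    rw [lt_div_iff₀ (by linarith)]
    linarith
  have hhol : r.HolderConjugate (r / (r - 1)) := Real.HolderConjugate.conjExponent hr
  have hMb : 1 ≤ M * M' * (r / (r - 1)) * b := by
    calc (1 : ℝ) = 1 * 1 * 1 * 1 := by norm_num
      _ ≤ M * M' * (r / (r - 1)) * b := by gcongr
  have hMb2 : 1 ≤ (M * M' * (r / (r - 1)) * b) ^ 2 := one_le_pow₀ hMb
  refine few hd p hball hint _ _ (by nlinarith) (le_trans (by norm_num) (le_max_right e 2))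
    fun lam hlam hc => ?_
  refine Pool.Agent.J4H21.FL.quot_gen hd p hcont h0 hcomp hconc he hM hhol hconv hM' J hJ T
    (fun ζ => ?_) b hb (fun x hx => h2 x ((hmem x).1 hx)) lam hlam ?_
  · exact hom_le (fun ζ => ρ (J ζ)) (fun c ζ => by
      have e1 : J (c • ζ) = fun ω => c * J ζ ω := by
        rw [map_smul]
        rfl
      rw [e1]
      exact hρ.2.1 c _ (hJ ζ)) T p (fun ζ hζ => (hmem _).2 (h1 ζ hζ)) ζ
  · refine le_trans (le_of_eq ?_) hc
    congr 1
    ring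

/-- subspaces -/
theorem subspace_version {d : ℕ} (hd : 2 ≤ d) (K : Set (Sp d)) (hK : IsSymmBody K)
    {Ω : Type*} [MeasurableSpace Ω] (ρ : (Ω → ℝ) → ℝ≥0∞) (e M b : ℝ)
    (hρ : IsLatticeNorm ρ) (he : 1 ≤ e) (hM : 1 ≤ M)
    (hconc : Pool.Agent.J4H21.FL.ConcaveNorm ρ e M) (hb : 1 ≤ b)
    (Z : Submodule ℝ (Ω → ℝ)) (T : (Ω → ℝ) →ₗ[ℝ] Sp d) (hinj : Set.InjOn T Z)
    (h : IsNear K ρ b Z T) : FewTranslates K (e * (M * b) ^ 2) (max e 2) := by
  obtain ⟨hJ, hT1, hT2⟩ := h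
  set T' : Z →ₗ[ℝ] Sp d := T.comp Z.subtype with hT'
  have hinj' : Function.Injective T' := by
    intro x y hxy
    exact Subtype.ext (hinj x.2 y.2 hxy)
  have hsurj : Function.Surjective T' := by
    intro x
    have h1 : ∃ s : ℝ, s ≠ 0 ∧ s • x ∈ K := by
      obtain ⟨hK1, hK2, hK3, hK4⟩ := hK
      obtain ⟨p, hcont, hball, -, hV0, hint⟩ :=
        Pool.Agent.J4H21.FL.exists_seminorm hK1 hK2 hK3 hK4
      refine ⟨(p x + 1)⁻¹, ?_, ?_⟩
      · have := apply_nonneg p x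
        positivity
      · have h2 := apply_nonneg p x
        rw [← hball]
        show p ((p x + 1)⁻¹ • x) ≤ 1
        rw [map_smul_eq_mul, Real.norm_of_nonneg (by positivity),
          inv_mul_le_iff₀ (by positivity)]
        linarith
    obtain ⟨s, hs0, hs⟩ := h1
    obtain ⟨f, hf, hfs, -⟩ := hT2 _ hs
    refine ⟨s⁻¹ • ⟨f, hf⟩, ?_⟩
    rw [map_smul]
    show s⁻¹ • T f = x
    rw [hfs, smul_smul, inv_mul_cancel₀ hs0, one_smul]
  set Te := LinearEquiv.ofBijective T' ⟨hinj', hsurj⟩ with hTe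
  have hTs : ∀ x, T (Te.symm x : Ω → ℝ) = x := fun x => Te.apply_symm_apply x
  set a : Ω → Sp d := fun ω => WithLp.toLp 2 fun i =>
    (Te.symm (EuclideanSpace.single i (1 : ℝ)) : Ω → ℝ) ω with ha
  have ha_m : Measurable a := by
    apply (PiLp.continuous_toLp 2 _).measurable.comp
    exact measurable_pi_lambda _ fun i => hJ _ (Te.symm _).2
  have hax : ∀ x : Sp d, (fun ω => inner ℝ (a ω) x) = (Te.symm x : Ω → ℝ) := by
    intro x
    have h1 : x = ∑ i, x i • (EuclideanSpace.single i (1 : ℝ) : Sp d) := by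
      ext j
      simp [Pi.single_apply]
    funext ω
    conv_rhs => rw [h1]
    rw [map_sum, AddSubmonoidClass.coe_finsetSum, Finset.sum_apply, PiLp.inner_apply]
    refine Finset.sum_congr rfl fun i _ => ?_
    rw [map_smul]
    show inner ℝ ((Te.symm (EuclideanSpace.single i (1 : ℝ)) : Ω → ℝ) ω) (x i)
      = x i * (Te.symm (EuclideanSpace.single i (1 : ℝ)) : Ω → ℝ) ω
    simp
  refine average_version hd K hK ρ e M b a hρ he hM hconc hb ha_m (fun x hx => ?_) ?_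
  · rw [hax] at hx
    have := hT1 _ (Te.symm x).2 hx
    rwa [hTs] at this
  · calc ∫⁻ x in K, ρ (fun ω => inner ℝ (a ω) x)
        ≤ ∫⁻ _ in K, ENNReal.ofReal b := by
          refine setLIntegral_mono' hK.2.1.measurableSet fun x hx => ?_
          obtain ⟨f, hf, hfx, hfb⟩ := hT2 x hx
          have h4 : Te.symm x = ⟨f, hf⟩ := by
            apply hinj'
            show T (Te.symm x : Ω → ℝ) = T f
            rw [hTs, hfx]
          rw [hax, h4]
          exact hfb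
      _ = _ := by rw [setLIntegral_const]

theorem quotient_version' {d : ℕ} (hd : 2 ≤ d) (K : Set (Sp d)) (hK : IsSymmBody K)
    {Ω : Type*} [MeasurableSpace Ω] (ρ : (Ω → ℝ) → ℝ≥0∞) (e M r M' b : ℝ)
    (hρ : IsLatticeNorm ρ) (he : 1 ≤ e) (hM : 1 ≤ M)
    (hconc : Pool.Agent.J4H21.FL.ConcaveNorm ρ e M) (hr : 1 < r) (hM' : 1 ≤ M')
    (hconv : Pool.Agent.J4H21.FL.ConvexNorm ρ r M') (hb : 1 ≤ b)
    (Z : Submodule ℝ (Ω → ℝ)) (T : (Ω → ℝ) →ₗ[ℝ] Sp d) (h : IsNear K ρ b Z T) :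
    FewTranslates K (e * (M * M' * (r / (r - 1)) * b) ^ 2) (max e 2) := by
  obtain ⟨hJ, hT1, hT2⟩ := h
  refine quotient_version hd K hK ρ e M r M' b Z.subtype (T.comp Z.subtype) hρ he hM hconc hr hM'
    hconv hb (fun ζ => hJ ζ ζ.2) (fun ζ hζ => hT1 ζ ζ.2 hζ) fun x hx => ?_
  obtain ⟨f, hf, hfx, hfb⟩ := hT2 x hx
  exact ⟨⟨f, hf⟩, hfx, hfb⟩

/-- **Main theorem.** -/
theorem result (d : ℕ) (hd : 2 ≤ d) (K : Set (Sp d)) (hK : IsSymmBody K) :
    (∀ (Ω : Type*) [MeasurableSpace Ω] (ν : Measure Ω) (q b R : ℝ)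
      (Z : Submodule ℝ (Ω → ℝ)) (T : (Ω → ℝ) →ₗ[ℝ] Sp d), 1 ≤ q → 1 ≤ b →
      IsNear K (fun f => eLpNorm f (ENNReal.ofReal q) ν) b Z T →
      (Set.InjOn T Z ∧ R = 1 ∨ 1 < q ∧ R = q / (q - 1)) →
      FewTranslates K (q * (R * b) ^ 2) (max q 2)) ∧
    ∀ (Ω : Type*) [MeasurableSpace Ω] (ρ : (Ω → ℝ) → ℝ≥0∞) (e M b : ℝ), 1 ≤ b →
      IsLatticeNorm ρ → IsConcave ρ e M →
      (NearSubspace K ρ b → FewTranslates K (e * (M * b) ^ 2) (max e 2)) ∧
      ∀ (r M' : ℝ) (Z : Submodule ℝ (Ω → ℝ)) (T : (Ω → ℝ) →ₗ[ℝ] Sp d), IsConvex ρ r M' →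
        IsNear K ρ b Z T → FewTranslates K (e * (M * M' * (r / (r - 1)) * b) ^ 2) (max e 2) := by
  refine ⟨?_, ?_⟩
  · intro Ω _ ν q b R Z T hq hb hN hR
    have hconc := Pool.Agent.J4H21.FL.lq_concave ν q hq
    have hlat : IsLatticeNorm (Pool.Agent.J4H21.FL.lq ν q) := ⟨hconc.mono, hconc.smul, hconc.add⟩
    have hN' : IsNear K (Pool.Agent.J4H21.FL.lq ν q) b Z T := by
      have e1 : Pool.Agent.J4H21.FL.lq ν q = fun f => eLpNorm f (ENNReal.ofReal q) ν := by
        funext f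
        exact lq_eq ν q hq f
      rw [e1]
      exact hN
    rcases hR with ⟨hinj, hR⟩ | ⟨hq1, hR⟩
    · have h3 := subspace_version hd K hK (Pool.Agent.J4H21.FL.lq ν q) q 1 b hlat hq le_rfl hconc
        hb Z T hinj hN'
      rw [hR]
      exact h3
    · have h3 := quotient_version' hd K hK (Pool.Agent.J4H21.FL.lq ν q) q 1 q 1 b hlat hq le_rfl
        hconc hq1 le_rfl (Pool.Agent.J4H21.FL.lq_convex ν q hq) hb Z T hN'
      rw [hR]
      simpa using h3
  · intro Ω _ ρ e M b hb hρ hconc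
    refine ⟨?_, ?_⟩
    · rintro ⟨a, ha, h1, h2⟩
      exact average_version hd K hK ρ e M b a hρ hconc.1 hconc.2.1 (concave_fl hρ hconc) hb ha
        h1 h2
    · intro r M' Z T hconv hN
      exact quotient_version' hd K hK ρ e M r M' b hρ hconc.1 hconc.2.1
        (concave_fl hρ hconc) hconv.1 hconv.2.1 hconv.2.2 hb Z T hN

end Pool.Agent.J4H21.SubspacesOfLq
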